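import Pool.Agent.W_8c5d11_h73.Hs7

/-!
MP_8c5d11_gt, `2r ≤ R ≤ 3r`: the horseshoe with a radial spur opposite to the gap covers the disc.
-/

set_option autoImplicit false

open MeasureTheory Metric Set Complex
open scoped ENNReal NNReal Real ComplexConjugate

namespace Pool.Agent.W_8c5d11_w65

open Pool.Agent.W_8c5d11_h73

/-- Real coordinate of the tip of the spur. -/
noncomputable def tip (R r : ℝ) : ℝ := (R - 2 * r) * R / (R - r) - r

/-- The spur: the segment of the real axis from `-(R - r)` to the tip. -/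
noncomputable def spurSeg (R r : ℝ) : Set ℂ := (fun s : ℝ => (s : ℂ)) '' Icc (-(R - r)) (tip R r)

/-- The horseshoe with a spur. -/
noncomputable def spurSet (R r : ℝ) : Set ℂ := horseshoe R r ∪ spurSeg R r

theorem end_disc' {R r m c s C ρ : ℝ} (hr : 0 < r) (hR : r < R) (hm : 0 ≤ m)
    (hm2 : (m + r) ^ 2 = r * (R + (R - r))) (hC : R * C = R - r) (hcs : s ^ 2 + c ^ 2 = 1)
    (hcC : C ≤ c) (hc0 : 0 ≤ c) (hs0 : 0 ≤ s) (hs2 : R * s ≤ m + r) (hρ : ρ ≤ R) (hρ1 : m ≤ ρ * s)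
    (hk : (R - 2 * r) * s ≤ m * c) :
    (ρ * c - (R - r)) ^ 2 + (ρ * s - m) ^ 2 ≤ r ^ 2 := by
  have hR0 : 0 < R := hr.trans hR
  have hm0 : 0 < m := by
    by_contra hcon
    have h0 : m = 0 := le_antisymm (not_lt.1 hcon) hm
    rw [h0] at hm2
    nlinarith
  have hs : 0 < s := by
    rcases hs0.eq_or_lt with h | h
    · rw [← h] at hρ1
      linarith
    · exact h
  have hc1 : c ≤ 1 := by nlinarith
  have hmR : m ≤ R * s := hρ1.trans (mul_le_mul_of_nonneg_right hρ hs0)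
  have e1 := end_sphere hr hR hm hm2 hC hcs hcC hmR hs2
  set ρ0 := m / s with hρ0
  have e2 : ρ0 * s = m := div_mul_cancel₀ m hs.ne'
  have e3 : ρ0 ≤ ρ := by
    rw [hρ0, div_le_iff₀ hs]
    exact hρ1
  have e4 : R - 2 * r ≤ ρ0 * c := by
    have : (R - 2 * r) * s ≤ (ρ0 * c) * s := by
      calc (R - 2 * r) * s ≤ m * c := hk
        _ = (ρ0 * c) * s := by rw [← e2]; ring
    exact le_of_mul_le_mul_right this hs
  have hρ00 : 0 < ρ0 := div_pos hm0 hs
  have e5 : ρ0 * c ≤ R := by nlinarith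
  have e6 : (ρ0 * c - (R - r)) ^ 2 + (ρ0 * s - m) ^ 2 ≤ r ^ 2 := by
    rw [e2, sub_self]
    nlinarith
  rcases (e3.trans hρ).eq_or_lt with h | h
  · have h1 : ρ = R := le_antisymm hρ (h ▸ e3)
    rw [h1]
    exact e1
  · have h1 : 0 ≤ (R - ρ) * (ρ - ρ0) := mul_nonneg (by linarith) (by linarith)
    have h2 : ((ρ * c - (R - r)) ^ 2 + (ρ * s - m) ^ 2) * (R - ρ0) =
        (R - ρ) * ((ρ0 * c - (R - r)) ^ 2 + (ρ0 * s - m) ^ 2) +
          (ρ - ρ0) * ((R * c - (R - r)) ^ 2 + (R * s - m) ^ 2) -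
          (R - ρ) * (ρ - ρ0) * (R - ρ0) * (s ^ 2 + c ^ 2) := by ring
    have h3 : ((ρ * c - (R - r)) ^ 2 + (ρ * s - m) ^ 2) * (R - ρ0) ≤ r ^ 2 * (R - ρ0) := by
      rw [h2, hcs, mul_one]
      have h4 : (R - ρ) * ((ρ0 * c - (R - r)) ^ 2 + (ρ0 * s - m) ^ 2) ≤ (R - ρ) * r ^ 2 :=
        mul_le_mul_of_nonneg_left e6 (by linarith)
      have h5 : (ρ - ρ0) * ((R * c - (R - r)) ^ 2 + (R * s - m) ^ 2) ≤ (ρ - ρ0) * r ^ 2 :=
        mul_le_mul_of_nonneg_left e1 (by linarith)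
      have h6 : 0 ≤ (R - ρ) * (ρ - ρ0) * (R - ρ0) := mul_nonneg h1 (by linarith)
      nlinarith
    exact le_of_mul_le_mul_right h3 (by linarith)

/-- the uncovered part of the upper half of the disc -/
theorem hole_upper {R r ρ θ : ℝ} (hr : 0 < r) (h2 : 2 * r ≤ R) (h3 : R ≤ 3 * r) (hρ0 : 0 ≤ ρ)
    (hρ : ρ ≤ R) (hθ0 : 0 ≤ θ) (hθ : θ ≤ π) :
    (∃ y ∈ horseshoe R r, ‖(ρ : ℂ) * cexp ((θ : ℂ) * I) - y‖ ≤ r) ∨ ρ < R - 2 * r ∨
      (θ < hang R r ∧ ρ * Real.cos (hang R r - θ) < R - 2 * r) := by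
  have hR : r < R := by linarith
  obtain ⟨f1, f2, f3, f4⟩ := arccos_facts hr hR
  obtain ⟨g1, g2⟩ := hseg_facts hr hR
  have hR0 : 0 < R := hr.trans hR
  have hπ := Real.pi_pos
  have hseg_eq : R * Real.sin (hang R r) = hseg R r + r := by
    unfold hseg hang
    rw [f4]
    ring
  by_cases hθφ : hang R r ≤ θ
  · by_cases hρη : ρ < R - 2 * r
    · exact Or.inr (Or.inl hρη)
    push Not at hρη
    refine Or.inl ⟨((R - r : ℝ) : ℂ) * cexp ((θ : ℂ) * I), Or.inl (Or.inl ⟨θ, ⟨hθφ, ?_⟩, rfl⟩), ?_⟩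
    · unfold hang
      linarith
    · rw [← sub_mul, norm_mul, norm_exp_ofReal_mul_I, mul_one, ← ofReal_sub, Complex.norm_real,
        Real.norm_eq_abs, abs_le]
      constructor <;> linarith
  · push Not at hθφ
    by_cases hη : ρ * Real.cos (hang R r - θ) < R - 2 * r
    · exact Or.inr (Or.inr ⟨hθφ, hη⟩)
    push Not at hη
    set ψ := hang R r - θ with hψ
    have hψ0 : 0 < ψ := by linarith
    have hψ1 : ψ ≤ hang R r := by linarith
    have hφ2 : hang R r < π / 2 := f2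
    have hs0 : 0 ≤ Real.sin ψ := Real.sin_nonneg_of_nonneg_of_le_pi hψ0.le (by linarith)
    have hs1 : Real.sin ψ ≤ Real.sin (hang R r) :=
      Real.sin_le_sin_of_le_of_le_pi_div_two (by linarith) hφ2.le hψ1
    have hc1 : Real.cos (hang R r) ≤ Real.cos ψ :=
      Real.cos_le_cos_of_nonneg_of_le_pi hψ0.le (by linarith) hψ1
    have hcs := Real.sin_sq_add_cos_sq ψ
    have hC : R * Real.cos (hang R r) = R - r := f3
    have hc0 : 0 < Real.cos ψ := Real.cos_pos_of_mem_Ioo ⟨by linarith, by linarith⟩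
    have hRs : R * Real.sin ψ ≤ hseg R r + r := by
      rw [← hseg_eq]
      exact mul_le_mul_of_nonneg_left hs1 hR0.le
    left
    by_cases hm : ρ * Real.sin ψ ≤ hseg R r
    · refine ⟨(((R - r : ℝ) : ℂ) - ((ρ * Real.sin ψ : ℝ) : ℂ) * I) * cexp ((hang R r : ℂ) * I),
        Or.inl (Or.inr ⟨ρ * Real.sin ψ, ⟨mul_nonneg hρ0 hs0, hm⟩, rfl⟩), ?_⟩
      refine abs_le_of_sq_le_sq' ?_ hr.le |>.2
      rw [dist_seg, ← hψ, sub_self]
      have hc2 : Real.cos ψ ≤ 1 := Real.cos_le_one ψ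
      have e1 : ρ * Real.cos ψ ≤ R := by nlinarith
      nlinarith
    · push Not at hm
      refine ⟨(((R - r : ℝ) : ℂ) - (hseg R r : ℂ) * I) * cexp ((hang R r : ℂ) * I),
        Or.inl (Or.inr ⟨hseg R r, ⟨g1, le_rfl⟩, rfl⟩), ?_⟩
      refine abs_le_of_sq_le_sq' ?_ hr.le |>.2
      rw [dist_seg, ← hψ]
      have hmη : R - 2 * r ≤ hseg R r := by
        have k1 : (R - r) ^ 2 ≤ (hseg R r + r) ^ 2 := by
          rw [g2]
          nlinarith
        have k2 := abs_le_of_sq_le_sq' k1 (by linarith)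
        linarith [k2.2]
      have hk : (R - 2 * r) * Real.sin ψ ≤ hseg R r * Real.cos ψ := by
        have k1 : (R - 2 * r) * Real.sin (hang R r) ≤ hseg R r * Real.cos (hang R r) := by
          have k2 : R * ((R - 2 * r) * Real.sin (hang R r)) ≤
              R * (hseg R r * Real.cos (hang R r)) := by
            calc R * ((R - 2 * r) * Real.sin (hang R r))
                = (R - 2 * r) * (R * Real.sin (hang R r)) := by ring
              _ = (R - 2 * r) * (hseg R r + r) := by rw [hseg_eq]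
              _ ≤ hseg R r * (R - r) := by nlinarith
              _ = R * (hseg R r * Real.cos (hang R r)) := by rw [← hC]; ring
          exact le_of_mul_le_mul_left k2 hR0
        calc (R - 2 * r) * Real.sin ψ ≤ (R - 2 * r) * Real.sin (hang R r) :=
              mul_le_mul_of_nonneg_left hs1 (by linarith)
          _ ≤ hseg R r * Real.cos (hang R r) := k1
          _ ≤ hseg R r * Real.cos ψ := mul_le_mul_of_nonneg_left hc1 g1
      exact end_disc' hr hR g1 g2 hC hcs hc1 hc0.le hs0 hRs hρ hm.le hk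

theorem spurSeg_compact (R r : ℝ) : IsCompact (spurSeg R r) :=
  isCompact_Icc.image (by fun_prop)

theorem spurSeg_convex (R r : ℝ) : Convex ℝ (spurSeg R r) := by
  have h := (convex_Icc (-(R - r)) (tip R r)).linear_image (Complex.ofRealLI.toLinearMap)
  exact h

theorem tip_facts {R r : ℝ} (hr : 0 < r) (h2 : 2 * r ≤ R) :
    -(R - r) ≤ tip R r ∧ R - 2 * r ≤ tip R r + r ∧
      (tip R r + r) * Real.cos (hang R r) = R - 2 * r ∧
      tip R r + (R - r) = (R - 2 * r) * (2 * R - r) / (R - r) ∧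
      tip R r + (R - r) ≤ 3 * (R - 2 * r) := by
  have hR : r < R := by linarith
  have ha : 0 < R - r := by linarith
  have hR0 : 0 < R := by linarith
  have hC : R * Real.cos (hang R r) = R - r := (arccos_facts hr hR).2.2.1
  have e1 : R - 2 * r ≤ tip R r + r := by
    unfold tip
    rw [sub_add_cancel, le_div_iff₀ ha]
    nlinarith
  have e2 : tip R r + (R - r) = (R - 2 * r) * (2 * R - r) / (R - r) := by
    unfold tip
    field_simp
    ring
  refine ⟨by linarith, e1, ?_, e2, ?_⟩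
  · unfold tip
    rw [sub_add_cancel]
    have : (R - 2 * r) * R / (R - r) * Real.cos (hang R r) =
        (R - 2 * r) * (R * Real.cos (hang R r)) / (R - r) := by ring
    rw [this, hC, mul_div_assoc, div_self ha.ne', mul_one]
  · rw [e2, div_le_iff₀ ha]
    nlinarith

theorem near_centre {R r : ℝ} (hr : 0 < r) (h2 : 2 * r ≤ R) (h3 : R ≤ 3 * r) {x : ℂ}
    (hx : ‖x‖ ≤ R - 2 * r) : x ∈ cthickening r (spurSeg R r) := by
  obtain ⟨t1, t2, -, -, -⟩ := tip_facts hr h2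
  have h0 : -(R - r) ≤ min (tip R r) 0 := le_min t1 (by linarith)
  refine mem_cthickening_of_dist_le x ((min (tip R r) 0 : ℝ) : ℂ) r _
    ⟨min (tip R r) 0, ⟨h0, min_le_left _ _⟩, rfl⟩ ?_
  rw [dist_eq_norm]
  have h4 : ‖(((min (tip R r) 0 : ℝ)) : ℂ)‖ ≤ 3 * r - R := by
    rw [Complex.norm_real, Real.norm_eq_abs, abs_of_nonpos (min_le_right _ _)]
    rcases le_total (tip R r) 0 with h | h
    · rw [min_eq_left h]
      linarith
    · rw [min_eq_right h]
      linarith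
  calc ‖x - ((min (tip R r) 0 : ℝ) : ℂ)‖ ≤ ‖x‖ + ‖((min (tip R r) 0 : ℝ) : ℂ)‖ := norm_sub_le _ _
    _ ≤ r := by linarith

theorem kite {R r ρ θ : ℝ} (hr : 0 < r) (h2 : 2 * r ≤ R) (h3 : R ≤ 3 * r) (hρ0 : 0 ≤ ρ)
    (hθ0 : 0 ≤ θ) (hθ : θ < hang R r) (h : ρ * Real.cos (hang R r - θ) < R - 2 * r) :
    (ρ : ℂ) * cexp ((θ : ℂ) * I) ∈ cthickening r (spurSeg R r) := by
  have hR : r < R := by linarith
  obtain ⟨t1, t2, t3, -, -⟩ := tip_facts hr h2
  obtain ⟨f1, f2⟩ : 0 < hang R r ∧ hang R r < π / 2 :=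
    ⟨(arccos_facts hr hR).1, (arccos_facts hr hR).2.1⟩
  have hπ := Real.pi_pos
  set φ := hang R r with hφ
  set η := R - 2 * r with hη
  set A := tip R r + r with hA
  have hcψ : 0 < Real.cos (φ - θ) := Real.cos_pos_of_mem_Ioo ⟨by linarith, by linarith⟩
  have hη0 : 0 < η := lt_of_le_of_lt (mul_nonneg hρ0 hcψ.le) h
  have hsφ : 0 < Real.sin φ := Real.sin_pos_of_pos_of_lt_pi f1 (by linarith)
  have hcφ : 0 < Real.cos φ := Real.cos_pos_of_mem_Ioo ⟨by linarith, by linarith⟩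
  have hA0 : 0 < A := lt_of_lt_of_le hη0 t2
  have hsψ : 0 ≤ Real.sin (φ - θ) := Real.sin_nonneg_of_nonneg_of_le_pi (by linarith) (by linarith)
  have hsθ : 0 ≤ Real.sin θ := Real.sin_nonneg_of_nonneg_of_le_pi (by linarith) (by linarith)
  have hconv : Convex ℝ (cthickening r (spurSeg R r)) := (spurSeg_convex R r).cthickening r
  have m0 : (0 : ℂ) ∈ cthickening r (spurSeg R r) :=
    near_centre hr h2 h3 (by rw [norm_zero]; exact hη0.le)
  have mU : ((η : ℝ) : ℂ) * cexp ((φ : ℂ) * I) ∈ cthickening r (spurSeg R r) := by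
    refine near_centre hr h2 h3 ?_
    rw [norm_mul, norm_exp_ofReal_mul_I, mul_one, Complex.norm_of_nonneg hη0.le]
  have mA : ((A : ℝ) : ℂ) ∈ cthickening r (spurSeg R r) := by
    refine mem_cthickening_of_dist_le _ ((tip R r : ℝ) : ℂ) r _
      ⟨tip R r, ⟨t1, le_rfl⟩, rfl⟩ ?_
    rw [dist_eq_norm, ← ofReal_sub, Complex.norm_real, Real.norm_eq_abs, hA, add_sub_cancel_left,
      abs_of_pos hr]
  set b := ρ * Real.sin (φ - θ) / (A * Real.sin φ) with hb
  set c := ρ * Real.sin θ / (η * Real.sin φ) with hc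
  have hb0 : 0 ≤ b := div_nonneg (mul_nonneg hρ0 hsψ) (mul_pos hA0 hsφ).le
  have hc0 : 0 ≤ c := div_nonneg (mul_nonneg hρ0 hsθ) (mul_pos hη0 hsφ).le
  have hbA : b * A * Real.sin φ = ρ * Real.sin (φ - θ) := by
    rw [hb]
    field_simp
  have hcη : c * η * Real.sin φ = ρ * Real.sin θ := by
    rw [hc]
    field_simp
  have hsum : (b + c) * η = ρ * Real.cos (φ - θ) := by
    have k1 : (b + c) * η * Real.sin φ = ρ * Real.cos (φ - θ) * Real.sin φ := by
      have k2 : (b + c) * η * Real.sin φ = b * A * Real.sin φ * Real.cos φ + c * η * Real.sin φ := by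
        rw [← t3]
        ring
      rw [k2, hbA, hcη, Real.sin_sub, Real.cos_sub]
      have := Real.sin_sq_add_cos_sq φ
      linear_combination (-ρ * Real.sin θ) * this
    exact mul_right_cancel₀ hsφ.ne' k1
  have hbc : b + c ≤ 1 := by
    have : (b + c) * η ≤ 1 * η := by rw [hsum, one_mul]; exact h.le
    exact le_of_mul_le_mul_right this hη0
  have hx : (ρ : ℂ) * cexp ((θ : ℂ) * I) =
      (b : ℂ) * (A : ℂ) + (c : ℂ) * ((η : ℂ) * cexp ((φ : ℂ) * I)) := by
    apply Complex.ext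
    · rw [Complex.exp_mul_I, Complex.exp_mul_I]
      simp only [mul_re, mul_im, add_re, add_im, ofReal_re, ofReal_im, I_re, I_im, cos_ofReal_re,
        cos_ofReal_im, sin_ofReal_re, sin_ofReal_im]
      have k1 : (ρ * Real.cos θ) * Real.sin φ = (b * A + c * (η * Real.cos φ)) * Real.sin φ := by
        have k2 : (b * A + c * (η * Real.cos φ)) * Real.sin φ =
            b * A * Real.sin φ + c * η * Real.sin φ * Real.cos φ := by ring
        rw [k2, hbA, hcη, Real.sin_sub]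
        ring
      have k3 := mul_right_cancel₀ hsφ.ne' k1
      linarith
    · rw [Complex.exp_mul_I, Complex.exp_mul_I]
      simp only [mul_re, mul_im, add_re, add_im, ofReal_re, ofReal_im, I_re, I_im, cos_ofReal_re,
        cos_ofReal_im, sin_ofReal_re, sin_ofReal_im]
      linarith
  rw [hx]
  rcases (add_nonneg hb0 hc0).eq_or_lt with h0 | h0
  · have hb1 : b = 0 := by linarith
    have hc1 : c = 0 := by linarith
    rw [hb1, hc1]
    simpa using m0
  · have hz : (b / (b + c)) • ((A : ℝ) : ℂ) + (c / (b + c)) • (((η : ℝ) : ℂ) * cexp ((φ : ℂ) * I)) ∈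
        cthickening r (spurSeg R r) :=
      hconv mA mU (div_nonneg hb0 h0.le) (div_nonneg hc0 h0.le) (by
        rw [← add_div, div_self h0.ne'])
    have h1 := hconv hz m0 h0.le (by linarith : 0 ≤ 1 - (b + c)) (by ring)
    convert h1 using 1
    rw [smul_zero, add_zero, smul_add, smul_smul, smul_smul, mul_div_cancel₀ _ h0.ne',
      mul_div_cancel₀ _ h0.ne', Complex.real_smul, Complex.real_smul]

theorem seg_near {R r : ℝ} (hr : 0 < r) {x : ℂ} (h : x ∈ cthickening r (spurSeg R r)) :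
    ∃ y ∈ spurSeg R r, ‖x - y‖ ≤ r := by
  rw [(spurSeg_compact R r).cthickening_eq_biUnion_closedBall hr.le] at h
  simp only [mem_iUnion, mem_closedBall] at h
  obtain ⟨y, hy, h⟩ := h
  exact ⟨y, hy, by rw [← dist_eq_norm]; exact h⟩

theorem spur_upper {R r ρ θ : ℝ} (hr : 0 < r) (h2 : 2 * r ≤ R) (h3 : R ≤ 3 * r) (hρ0 : 0 ≤ ρ)
    (hρ : ρ ≤ R) (hθ0 : 0 ≤ θ) (hθ : θ ≤ π) :
    ∃ y ∈ spurSet R r, ‖(ρ : ℂ) * cexp ((θ : ℂ) * I) - y‖ ≤ r := by
  rcases hole_upper hr h2 h3 hρ0 hρ hθ0 hθ with ⟨y, hy, h⟩ | h | ⟨h, h'⟩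
  · exact ⟨y, Or.inl hy, h⟩
  · obtain ⟨y, hy, h1⟩ := seg_near hr (near_centre hr h2 h3
      (x := (ρ : ℂ) * cexp ((θ : ℂ) * I)) (by
        rw [norm_mul, norm_exp_ofReal_mul_I, mul_one, Complex.norm_of_nonneg hρ0]
        exact h.le))
    exact ⟨y, Or.inr hy, h1⟩
  · obtain ⟨y, hy, h1⟩ := seg_near hr (kite hr h2 h3 hρ0 hθ0 h h')
    exact ⟨y, Or.inr hy, h1⟩

theorem spurSet_conj {R r : ℝ} {z : ℂ} (hz : z ∈ spurSet R r) : conj z ∈ spurSet R r := by
  rcases hz with hz | ⟨s, hs, rfl⟩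
  · exact Or.inl (horseshoe_conj hz)
  · exact Or.inr ⟨s, hs, (conj_ofReal s).symm⟩

theorem spur_cover {R r : ℝ} (hr : 0 < r) (h2 : 2 * r ≤ R) (h3 : R ≤ 3 * r) :
    closedBall (0 : ℂ) R ⊆ cthickening r (spurSet R r) := by
  intro x hx
  rw [mem_closedBall_zero_iff] at hx
  suffices h : ∃ y ∈ spurSet R r, ‖x - y‖ ≤ r by
    obtain ⟨y, hy, h⟩ := h
    exact mem_cthickening_of_dist_le x y r _ hy (by rw [dist_eq_norm]; exact h)
  by_cases ha : 0 ≤ x.arg
  · obtain ⟨y, hy, h⟩ := spur_upper hr h2 h3 (norm_nonneg x) hx ha (arg_le_pi x)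
    rw [norm_mul_exp_arg_mul_I] at h
    exact ⟨y, hy, h⟩
  · push Not at ha
    have h3' := neg_pi_lt_arg x
    obtain ⟨y, hy, h⟩ := spur_upper hr h2 h3 (norm_nonneg x) hx (θ := -x.arg) (by linarith)
      (by linarith)
    refine ⟨conj y, spurSet_conj hy, ?_⟩
    have h4 : x - conj y = conj (((‖x‖ : ℝ) : ℂ) * cexp (((-x.arg : ℝ) : ℂ) * I) - y) := by
      rw [map_sub, map_mul, conj_ofReal, ← exp_conj, map_mul, conj_ofReal, conj_I]
      congr 1
      conv_lhs => rw [← norm_mul_exp_arg_mul_I x]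
      congr 2
      push_cast
      ring
    rw [h4, Complex.norm_conj]
    exact h

theorem spur_compact (R r : ℝ) : IsCompact (spurSet R r) :=
  (horseshoe_compact R r).union (spurSeg_compact R r)

theorem spur_connected {R r : ℝ} (hr : 0 < r) (h2 : 2 * r ≤ R) (h3 : R ≤ 3 * r) :
    IsConnected (spurSet R r) := by
  have hR : r < R := by linarith
  obtain ⟨t1, -, -, -, -⟩ := tip_facts hr h2
  have f2 : hang R r < π / 2 := (arccos_facts hr hR).2.1
  have hπ := Real.pi_pos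
  refine IsConnected.union ?_ (horseshoe_connected hr hR) ?_
  · refine ⟨((-(R - r) : ℝ) : ℂ), Or.inl (Or.inl ⟨π, ⟨by linarith, by linarith⟩, ?_⟩),
      ⟨-(R - r), ⟨le_rfl, t1⟩, rfl⟩⟩
    show ((R - r : ℝ) : ℂ) * cexp ((π : ℂ) * I) = ((-(R - r) : ℝ) : ℂ)
    rw [Complex.exp_pi_mul_I]
    push_cast
    ring
  · exact (isConnected_Icc t1).image _ (by fun_prop)

theorem spur_length {R r : ℝ} (hr : 0 < r) (h2 : 2 * r ≤ R) (h3 : R ≤ 3 * r) :
    μH[1] (spurSet R r) ≤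
      ENNReal.ofReal (hlen R r + (R - 2 * r) * (2 * R - r) / (R - r)) := by
  have hR : r < R := by linarith
  obtain ⟨t1, -, -, t4, -⟩ := tip_facts hr h2
  have h0 : 0 ≤ hlen R r := by
    obtain ⟨f1, f2, f3, f4⟩ := arccos_facts hr hR
    obtain ⟨g1, g2⟩ := hseg_facts hr hR
    rw [hlen_eq]
    have hφ : hang R r < π / 2 := f2
    have := mul_nonneg (by linarith : 0 ≤ R - r) (by linarith [Real.pi_pos] : 0 ≤ π - hang R r)
    linarith
  have h1 : 0 ≤ tip R r + (R - r) := by linarith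
  have e1 : μH[1] (spurSeg R r) ≤ ENNReal.ofReal (tip R r + (R - r)) := by
    have h := image_le (K := 1) (f := fun s : ℝ => (s : ℂ))
      (fun x y => by
        rw [← ofReal_sub, Complex.norm_real, Real.norm_eq_abs, NNReal.coe_one, one_mul])
      (-(R - r)) (tip R r)
    rw [NNReal.coe_one, one_mul, sub_neg_eq_add] at h
    exact h
  rw [← t4, ENNReal.ofReal_add h0 h1]
  exact (measure_union_le _ _).trans (add_le_add (horseshoe_length hr hR).le e1)

/-- For `2r ≤ R ≤ 3r` the disc is covered by the neighbourhood of a continuum whose length exceeds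
the length of the horseshoe by at most `(R - 2r)(2R - r)/(R - r) ≤ 3 (R - 2r)`. -/
theorem spur_main {R r : ℝ} (hr : 0 < r) (h2 : 2 * r ≤ R) (h3 : R ≤ 3 * r) :
    ∃ S : Set ℂ, IsCompact S ∧ IsConnected S ∧ closedBall (0 : ℂ) R ⊆ cthickening r S ∧
      μH[1] S ≤ ENNReal.ofReal (hlen R r + (R - 2 * r) * (2 * R - r) / (R - r)) ∧
      μH[1] S ≤ ENNReal.ofReal (hlen R r + 3 * (R - 2 * r)) := by
  obtain ⟨-, -, -, t4, t5⟩ := tip_facts hr h2
  refine ⟨spurSet R r, spur_compact R r, spur_connected hr h2 h3, spur_cover hr h2 h3,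
    spur_length hr h2 h3, (spur_length hr h2 h3).trans (ENNReal.ofReal_le_ofReal ?_)⟩
  rw [← t4]
  linarith

end Pool.Agent.W_8c5d11_w65
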