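import Pool.Agent.W_8c5d11_f73.K
import Pool.Agent.W_8c5d11_h65.UDef

/-!
MP_8c5d11_gt: strictness for continua which meet the open disc, all `0 < r < R`. Definitions.

Unit scale: `R - r = 1`, `R = 1 / sin c`, `0 < c < π / 2`. `Wd c n y a b l k`: an interval tree as
`GG c n y a b l`, in the closed disc of radius `R`, with a second length `k`, in which an edge counts
`dist y z - |GP c y - GP c z|`.
-/

set_option autoImplicit false

open Set
open scoped Real

namespace Pool.Agent.W_8c5d11_w65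

open Pool.Agent.W_8c5d11_v22 Pool.Agent.W_8c5d11_f73
open Pool.Agent.W_8c5d11_h65 (ee)

/-- the small constant -/
noncomputable def kp (c : ℝ) : ℝ := Real.sin c ^ 3 / 100000

/-- the potential -/
noncomputable def GP (c : ℝ) (z : ℂ) : ℝ := kp c / 48 * max 0 (1 - ‖z‖ ^ 2) ^ 3

/-- the linear form `u(ν + π/2) · z` with a correction -/
noncomputable def qP (c ν : ℝ) (z : ℂ) : ℝ :=
  dt (pt 1 (ν + π / 2)) z +
    kp c * ee ν z ^ 2 * (1 / Real.sin c + 1 - dt (pt 1 (ν + π / 2)) z)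

/-- the linear form `u(ν - π/2) · z` with a correction -/
noncomputable def qM (c ν : ℝ) (z : ℂ) : ℝ :=
  dt (pt 1 (ν - π / 2)) z +
    kp c * ee ν z ^ 2 * (1 / Real.sin c + 1 - dt (pt 1 (ν - π / 2)) z)

/-- interval trees with two lengths -/
inductive Wd (c : ℝ) : ℕ → ℂ → ℝ → ℝ → ℝ → ℝ → Prop
  | leaf {y : ℂ} {a b : ℝ} : a < b → ‖y‖ ≤ 1 / Real.sin c →
      (∀ t ∈ Icc a b, dist (pt (1 / Real.sin c) t) y ≤ 1 / Real.sin c - 1) → Wd c 0 y a b 0 0
  | mono {n : ℕ} {y : ℂ} {a b l k : ℝ} : Wd c n y a b l k → Wd c (n + 1) y a b l k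
  | ext {n : ℕ} {y z : ℂ} {a b l k : ℝ} : ‖y‖ ≤ 1 / Real.sin c → Wd c n z a b l k →
      Wd c (n + 1) y a b (l + dist y z) (k + (dist y z - |GP c y - GP c z|))
  | split {n : ℕ} {y : ℂ} {a s b l k l' k' : ℝ} : a < s → s < b → Wd c n y a s l k →
      Wd c n y s b l' k' → Wd c (n + 1) y a b (l + l') (k + k')

theorem GP_conj (c : ℝ) (z : ℂ) : GP c ((starRingEnd ℂ) z) = GP c z := by
  unfold GP
  rw [RCLike.norm_conj]

theorem Wd.norm {c : ℝ} {n : ℕ} {y : ℂ} {a b l k : ℝ} (h : Wd c n y a b l k) :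
    ‖y‖ ≤ 1 / Real.sin c := by
  induction h with
  | leaf _ h _ => exact h
  | mono _ ih => exact ih
  | ext h _ _ => exact h
  | split _ _ _ _ ih _ => exact ih

theorem Wd.toG {c : ℝ} {n : ℕ} {y : ℂ} {a b l k : ℝ} (h : Wd c n y a b l k) : GG c n y a b l := by
  induction h with
  | leaf h1 _ h2 => exact Gd.leaf h1 h2
  | mono _ ih => exact Gd.mono ih
  | ext _ _ ih => exact Gd.ext ih
  | split h1 h2 _ _ ih1 ih2 => exact Gd.split h1 h2 ih1 ih2

theorem Wd.conj {c : ℝ} {n : ℕ} {y : ℂ} {a b l k : ℝ} (h : Wd c n y a b l k) :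
    Wd c n ((starRingEnd ℂ) y) (-b) (-a) l k := by
  induction h with
  | leaf h h1 hc =>
    refine Wd.leaf (by linarith) (by rwa [RCLike.norm_conj]) fun t ht => ?_
    have h1 := hc (-t) ⟨by linarith [ht.2], by linarith [ht.1]⟩
    rw [← Complex.dist_conj_conj, pt_conj, neg_neg] at h1
    exact h1
  | mono _ ih => exact Wd.mono ih
  | @ext n y z a b l k h1 _ ih =>
    have h2 := Wd.ext (y := (starRingEnd ℂ) y) (by rwa [RCLike.norm_conj]) ih
    rw [Complex.dist_conj_conj, GP_conj, GP_conj] at h2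
    exact h2
  | @split n y a s b l k l' k' h1 h2 _ _ ih1 ih2 =>
    have h3 := Wd.split (by linarith : -b < -s) (by linarith : -s < -a) ih2 ih1
    rwa [add_comm l' l, add_comm k' k] at h3

theorem Wd.up {c : ℝ} {n m : ℕ} {y : ℂ} {a b l k : ℝ} (h : Wd c n y a b l k) (hnm : n ≤ m) :
    Wd c m y a b l k := by
  induction hnm with
  | refl => exact h
  | step _ ih => exact Wd.mono ih

end Pool.Agent.W_8c5d11_w65
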