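import Pool.Agent.W_8c5d11_w65.Def
import Pool.Agent.W_8c5d11_h65.USys

/-!
MP_8c5d11_gt: strictness for all `0 < r < R`. Basic facts, and the certificates for short intervals.
-/

set_option autoImplicit false

open Set
open scoped Real

namespace Pool.Agent.W_8c5d11_w65

open Pool.Agent.W_8c5d11_v22 Pool.Agent.W_8c5d11_f73
open Pool.Agent.W_8c5d11_h65 (ee ee_nonneg ee_conj fS abs_dt_pt_le pt_combo dt_pt_mul abs_ee_sub
  norm_pt_one)

theorem un_pt (t : ℝ) : un t = pt 1 t := by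
  apply Complex.ext
  · rw [pt_re, one_mul]; rfl
  · rw [pt_im, one_mul]; rfl

theorem sin_pos' {c : ℝ} (h0 : 0 < c) (h1 : c < π / 2) : 0 < Real.sin c :=
  Real.sin_pos_of_pos_of_lt_pi h0 (by linarith [Real.pi_pos])

theorem one_le_inv {c : ℝ} (h0 : 0 < c) (h1 : c < π / 2) : 1 ≤ 1 / Real.sin c := by
  rw [le_div_iff₀ (sin_pos' h0 h1)]
  linarith [Real.sin_le_one c]

theorem kp_pos {c : ℝ} (h0 : 0 < c) (h1 : c < π / 2) : 0 < kp c := by
  have := sin_pos' h0 h1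
  unfold kp
  positivity

theorem kp_cube {c : ℝ} (h0 : 0 < c) (h1 : c < π / 2) :
    kp c * (1 / Real.sin c) ^ 3 = 1 / 100000 := by
  have := (sin_pos' h0 h1).ne'
  unfold kp
  field_simp

theorem kp_le {c : ℝ} (h0 : 0 < c) (h1 : c < π / 2) : kp c ≤ 1 / 100000 := by
  have h2 := kp_cube h0 h1
  have h3 := one_le_inv h0 h1
  have h4 := kp_pos h0 h1
  have h5 : (1 : ℝ) ^ 3 ≤ (1 / Real.sin c) ^ 3 := pow_le_pow_left₀ (by norm_num) h3 3
  nlinarith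

theorem kp_ten {c : ℝ} (h0 : 0 < c) (h1 : c < π / 2) :
    kp c * (10 + 1 / Real.sin c) ≤ 1 / 5000 := by
  have h2 := kp_cube h0 h1
  have h3 := one_le_inv h0 h1
  have h4 := kp_pos h0 h1
  have h5 := kp_le h0 h1
  set R := 1 / Real.sin c
  have h6 : kp c * R ≤ kp c * R ^ 3 := by
    have : 1 ≤ R ^ 2 := by nlinarith
    nlinarith [mul_pos h4 (by linarith : 0 < R)]
  nlinarith

/-! ### the correction -/

theorem ee_le {c s : ℝ} {z : ℂ} (hz : ‖z‖ ≤ 1 / Real.sin c) : ee s z ≤ 1 + 1 / Real.sin c := by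
  have := abs_le.1 (abs_dt_pt_le s z)
  exact max_le (by linarith [norm_nonneg z]) (by linarith [this.1])

theorem ee_le_ee {c s s' : ℝ} {z : ℂ} (hz : ‖z‖ ≤ 1 / Real.sin c) :
    ee s z ≤ ee s' z + 1 / Real.sin c * |s - s'| := by
  have hR : 0 ≤ 1 / Real.sin c := (norm_nonneg z).trans hz
  have h1 : dt (pt 1 s') z - dt (pt 1 s) z ≤ 1 / Real.sin c * |s - s'| := by
    have e : dt (pt 1 s') z - dt (pt 1 s) z = dt (pt 1 s' - pt 1 s) z := by
      simp only [dt, Complex.sub_re, Complex.sub_im]; ring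
    have h2 := (abs_le.1 (abs_dt_le (pt 1 s' - pt 1 s) z)).2
    have h3 := dist_pt_le (zero_le_one (α := ℝ)) s' s
    rw [dist_eq_norm, one_mul, abs_sub_comm] at h3
    rw [e]
    refine h2.trans ?_
    rw [mul_comm]
    exact mul_le_mul hz h3 (norm_nonneg _) hR
  refine max_le ?_ ?_
  · have := ee_nonneg s' z
    positivity
  · have : 1 - dt (pt 1 s') z ≤ ee s' z := le_max_right _ _
    linarith

theorem corr_nonneg {c s ν : ℝ} {z : ℂ} (h0 : 0 < c) (h1 : c < π / 2)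
    (hz : ‖z‖ ≤ 1 / Real.sin c) :
    0 ≤ kp c * ee ν z ^ 2 * (1 / Real.sin c + 1 - dt (pt 1 s) z) := by
  have h2 := kp_pos h0 h1
  have h3 := (abs_le.1 (abs_dt_pt_le s z)).2
  have h4 : 0 ≤ 1 / Real.sin c + 1 - dt (pt 1 s) z := by linarith
  positivity

theorem corr_le {c s ν ν' : ℝ} {z : ℂ} (h0 : 0 < c) (h1 : c < π / 2)
    (hz : ‖z‖ ≤ 1 / Real.sin c) :
    kp c * ee ν z ^ 2 * (1 / Real.sin c + 1 - dt (pt 1 s) z) ≤
      1 / 10 * ee ν' z + (ν - ν') ^ 2 / 10 := by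
  have h2 := kp_pos h0 h1
  have h3 := (abs_le.1 (abs_dt_pt_le s z)).1
  have h4 := ee_le_ee (s := ν) (s' := ν') hz
  have h5 := ee_le (s := ν') hz
  have h6 := kp_cube h0 h1
  have h7 := one_le_inv h0 h1
  have h8 := ee_nonneg ν z
  have h9 := ee_nonneg ν' z
  set R := 1 / Real.sin c
  set D := ee ν z
  set D' := ee ν' z
  have a1 : D ^ 2 ≤ 2 * D' ^ 2 + 2 * (R ^ 2 * (ν - ν') ^ 2) := by
    have : D ^ 2 ≤ (D' + R * |ν - ν'|) ^ 2 := pow_le_pow_left₀ h8 h4 2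
    have e : (R * |ν - ν'|) ^ 2 = R ^ 2 * (ν - ν') ^ 2 := by rw [mul_pow, sq_abs]
    nlinarith [sq_nonneg (D' - R * |ν - ν'|)]
  have a2 : D' ^ 2 ≤ 2 * R * D' := by nlinarith
  have a3 : D ^ 2 ≤ 4 * R * D' + 2 * (R ^ 2 * (ν - ν') ^ 2) := by linarith
  have a4 : R + 1 - dt (pt 1 s) z ≤ 3 * R := by linarith
  have a5 : kp c * D ^ 2 * (R + 1 - dt (pt 1 s) z) ≤ kp c * D ^ 2 * (3 * R) :=
    mul_le_mul_of_nonneg_left a4 (by positivity)
  have a6 : kp c * (3 * R) * D ^ 2 ≤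
      kp c * (3 * R) * (4 * R * D' + 2 * (R ^ 2 * (ν - ν') ^ 2)) :=
    mul_le_mul_of_nonneg_left a3 (by positivity)
  have a7 : kp c * (3 * R) * (4 * R * D' + 2 * (R ^ 2 * (ν - ν') ^ 2)) =
      12 * (kp c * R ^ 2) * D' + 6 * (kp c * R ^ 3) * (ν - ν') ^ 2 := by ring
  have a8 : kp c * R ^ 2 ≤ 1 / 100000 := by
    have : 0 < kp c * R ^ 2 := by positivity
    nlinarith
  have a9 : kp c * R ^ 2 * D' ≤ 1 / 100000 * D' := mul_le_mul_of_nonneg_right a8 h9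
  rw [a7, h6] at a6
  nlinarith [sq_nonneg (ν - ν')]

theorem qP_ge {c ν : ℝ} {z : ℂ} (h0 : 0 < c) (h1 : c < π / 2) (hz : ‖z‖ ≤ 1 / Real.sin c) :
    dt (pt 1 (ν + π / 2)) z ≤ qP c ν z := by
  unfold qP
  linarith [corr_nonneg (s := ν + π / 2) (ν := ν) h0 h1 hz]

theorem qP_le {c ν ν' : ℝ} {z : ℂ} (h0 : 0 < c) (h1 : c < π / 2) (hz : ‖z‖ ≤ 1 / Real.sin c) :
    qP c ν z ≤ dt (pt 1 (ν + π / 2)) z + (1 / 10 * ee ν' z + (ν - ν') ^ 2 / 10) := by
  unfold qP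
  linarith [corr_le (s := ν + π / 2) (ν := ν) (ν' := ν') h0 h1 hz]

theorem qM_le {c ν ν' : ℝ} {z : ℂ} (h0 : 0 < c) (h1 : c < π / 2) (hz : ‖z‖ ≤ 1 / Real.sin c) :
    qM c ν z ≤ dt (pt 1 (ν - π / 2)) z + (1 / 10 * ee ν' z + (ν - ν') ^ 2 / 10) := by
  unfold qM
  linarith [corr_le (s := ν - π / 2) (ν := ν) (ν' := ν') h0 h1 hz]

theorem qP_conj2 (c ν : ℝ) (z : ℂ) : qP c (-ν) ((starRingEnd ℂ) z) = qM c ν z := by
  unfold qM qP
  have e : pt 1 (-ν + π / 2) = (starRingEnd ℂ) (pt 1 (ν - π / 2)) := by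
    rw [W_8c5d11_h65.conj_pt]; congr 1; ring
  rw [ee_conj, e, W_8c5d11_h65.dt_conj]

/-- The Lipschitz properties which are needed. -/
structure LipW (c : ℝ) : Prop where
  G : ∀ z z' : ℂ, |GP c z - GP c z'| ≤ kp c * dist z z'
  P : ∀ B ν : ℝ, ∀ z z' : ℂ, 0 ≤ B → B ≤ 1 → ‖z‖ ≤ 1 / Real.sin c → ‖z'‖ ≤ 1 / Real.sin c →
    |B * qP c ν z - B * qP c ν z'| ≤ dist z z' - |GP c z - GP c z'|

/-! ### certificates for one or two directions -/

theorem Wd.nonneg {c : ℝ} (h0 : 0 < c) (h1 : c < π / 2) (L : LipW c) {n : ℕ} {y : ℂ}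
    {a b l k : ℝ} (h : Wd c n y a b l k) : (1 - kp c) * l ≤ k ∧ 0 ≤ k := by
  have hk := kp_le h0 h1
  induction h with
  | leaf => simp
  | mono _ ih => exact ih
  | @ext n y z a b l k hy _ ih =>
    have h2 := L.G y z
    have h3 := dist_nonneg (x := y) (y := z)
    constructor
    · linarith [ih.1]
    · nlinarith [ih.2]
  | split _ _ _ _ ih1 ih2 =>
    constructor
    · linarith [ih1.1, ih2.1]
    · linarith [ih1.2, ih2.2]

theorem one_le_dt {c s : ℝ} {z : ℂ} (hc0 : 0 < c) (hc : c < π / 2)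
    (h : dist (pt (1 / Real.sin c) s) z ≤ 1 / Real.sin c - 1) : 1 ≤ dt (pt 1 s) z := by
  have := cov_zero hc0 hc h
  rwa [un_pt] at this

theorem ee_zero {c s : ℝ} {z : ℂ} (hc0 : 0 < c) (hc : c < π / 2)
    (h : dist (pt (1 / Real.sin c) s) z ≤ 1 / Real.sin c - 1) : ee s z = 0 :=
  max_eq_left (by linarith [one_le_dt hc0 hc h])

/-- small soft certificates -/
theorem softW {c : ℝ} (hc0 : 0 < c) (hc : c < π / 2) (L : LipW c) {n : ℕ} {y : ℂ}
    {a b l k : ℝ} (h : Wd c n y a b l k) : ∀ s₁ s₂ A₁ A₂ m₁ m₂ : ℝ, a ≤ s₁ → s₁ ≤ s₂ → s₂ ≤ b →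
      0 ≤ A₁ → 0 ≤ A₂ → 0 ≤ m₁ → 0 ≤ m₂ → A₁ + A₂ + m₁ + m₂ ≤ 1 - kp c →
      fS s₁ s₂ A₁ A₂ m₁ m₂ y ≤ k := by
  induction h with
  | leaf _ hy hcov =>
    intro s₁ s₂ A₁ A₂ m₁ m₂ h1 h2 h3 h4 h5 h6 h7 h8
    have c1 := hcov s₁ ⟨h1, h2.trans h3⟩
    have c2 := hcov s₂ ⟨h1.trans h2, h3⟩
    unfold fS
    rw [ee_zero hc0 hc c1, ee_zero hc0 hc c2]
    have a1 := mul_nonneg h4 (sub_nonneg.2 (one_le_dt hc0 hc c1))
    have a2 := mul_nonneg h5 (sub_nonneg.2 (one_le_dt hc0 hc c2))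
    linarith
  | mono _ ih => exact ih
  | @ext n y z a b l k hy _ ih =>
    intro s₁ s₂ A₁ A₂ m₁ m₂ h1 h2 h3 h4 h5 h6 h7 h8
    have ih' := ih s₁ s₂ A₁ A₂ m₁ m₂ h1 h2 h3 h4 h5 h6 h7 h8
    have hG := L.G y z
    have hd := dist_nonneg (x := y) (y := z)
    have d1 := (abs_le.1 (abs_dt_pt_le s₁ (y - z))).1
    have d2 := (abs_le.1 (abs_dt_pt_le s₂ (y - z))).1
    rw [← dt_sub_right, ← dist_eq_norm] at d1 d2
    have e1 := (abs_le.1 (abs_ee_sub s₁ y z)).2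
    have e2 := (abs_le.1 (abs_ee_sub s₂ y z)).2
    have a1 : A₁ * (dt (pt 1 s₁) z - dt (pt 1 s₁) y) ≤ A₁ * dist y z :=
      mul_le_mul_of_nonneg_left (by linarith) h4
    have a2 : A₂ * (dt (pt 1 s₂) z - dt (pt 1 s₂) y) ≤ A₂ * dist y z :=
      mul_le_mul_of_nonneg_left (by linarith) h5
    have a3 : m₁ * (ee s₁ y - ee s₁ z) ≤ m₁ * dist y z := mul_le_mul_of_nonneg_left e1 h6
    have a4 : m₂ * (ee s₂ y - ee s₂ z) ≤ m₂ * dist y z := mul_le_mul_of_nonneg_left e2 h7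
    have a5 : (A₁ + A₂ + m₁ + m₂) * dist y z ≤ (1 - kp c) * dist y z :=
      mul_le_mul_of_nonneg_right h8 hd
    unfold fS at ih' ⊢
    linarith
  | @split n y a s b l k l' k' _ _ G1 G2 ih1 ih2 =>
    intro s₁ s₂ A₁ A₂ m₁ m₂ h1 h2 h3 h4 h5 h6 h7 h8
    rcases le_total s₂ s with hs | hs
    · have := ih1 s₁ s₂ A₁ A₂ m₁ m₂ h1 h2 hs h4 h5 h6 h7 h8
      linarith [(G2.nonneg hc0 hc L).2]
    rcases le_total s s₁ with hs' | hs'
    · have := ih2 s₁ s₂ A₁ A₂ m₁ m₂ hs' h2 h3 h4 h5 h6 h7 h8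
      linarith [(G1.nonneg hc0 hc L).2]
    have k1 := ih1 s₁ s₁ A₁ 0 m₁ 0 h1 le_rfl hs' h4 le_rfl h6 le_rfl (by linarith)
    have k2 := ih2 s₂ s₂ A₂ 0 m₂ 0 hs le_rfl h3 h5 le_rfl h7 le_rfl (by linarith)
    unfold fS at k1 k2 ⊢
    linarith

/-- a hard terminal -/
theorem hardW {c : ℝ} (hc0 : 0 < c) (hc : c < π / 2) (L : LipW c) {n : ℕ} {y : ℂ}
    {a b l k : ℝ} (h : Wd c n y a b l k) : ∀ s : ℝ, a ≤ s → s ≤ b →
      phi c c - qP c (s + c - π / 2) y ≤ k := by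
  induction h with
  | leaf _ hy hcov =>
    intro s h1 h2
    have h3 := cov hc0 hc (θ := s + c) (hcov s ⟨h1, h2⟩)
    rw [add_sub_cancel_left, un_pt] at h3
    have h4 := qP_ge (ν := s + c - π / 2) hc0 hc hy
    rw [sub_add_cancel] at h4
    linarith
  | mono _ ih => exact ih
  | @ext n y z a b l k hy G ih =>
    intro s h1 h2
    have k1 := ih s h1 h2
    have k2 := (abs_le.1 (L.P 1 (s + c - π / 2) y z zero_le_one le_rfl hy G.norm)).1
    linarith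
  | @split n y a s' b l k l' k' _ _ G1 G2 ih1 ih2 =>
    intro s h1 h2
    rcases le_total s s' with hs | hs
    · linarith [ih1 s h1 hs, (G2.nonneg hc0 hc L).2]
    · linarith [ih2 s hs h2, (G1.nonneg hc0 hc L).2]

/-! ### plain certificates -/

theorem norm_pt' {κ : ℝ} (h : 0 ≤ κ) (s : ℝ) : ‖pt κ s‖ = κ := norm_pt h s

/-- two soft terminals -/
theorem soft_plain {c : ℝ} (hc0 : 0 < c) (hc : c < π / 2) {A B s₁ s₂ : ℝ} (hA0 : 0 ≤ A)
    (hA1 : A ≤ 1) (hB0 : 0 ≤ B) (hB1 : B ≤ 1) (hn : ‖pt A s₁ + pt B s₂‖ ≤ 1) (h12 : s₁ < s₂)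
    {n : ℕ} {y : ℂ} {a b l : ℝ} (h : GG c n y a b l) (ha : a ≤ s₁) (hb : s₂ ≤ b) :
    A + B ≤ l + (A * dt (pt 1 s₁) y + B * dt (pt 1 s₂) y) := by
  have key := closing hc0 hc (a₁ := s₁) (t₁ := s₁) (t₂ := s₁) (b₁ := s₂) (v₁ := A) (v₂ := B)
    (p₁ := pt A s₁) (p₂ := pt B s₂) le_rfl le_rfl h12.le h12
    (fun x hx => by
      rw [dt_pt_mul]
      nlinarith [one_le_dt hc0 hc hx])
    (fun x hx => by
      rw [dt_pt_mul]
      nlinarith [one_le_dt hc0 hc hx])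
    (fun s hs => by
      have : s = s₁ := le_antisymm hs.2 hs.1
      rw [this, sub_self, add_zero, norm_pt' hA0]; exact hA1)
    (fun s hs => by
      have : s = s₁ := le_antisymm hs.2 hs.1
      rw [this, sub_self, zero_add, norm_pt' hB0]; exact hB1)
    (by linarith [Real.pi_pos]) (by rw [sub_self, add_zero]; exact hn) h ha hb
  rw [sub_self, sub_self, add_zero, add_zero, dt_add, dt_pt_mul A, dt_pt_mul B] at key
  exact key

/-- one soft terminal -/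
theorem soft_plain1 {c : ℝ} (hc0 : 0 < c) (hc : c < π / 2) {A s₁ : ℝ} (hA0 : 0 ≤ A)
    (hA1 : A ≤ 1) {n : ℕ} {y : ℂ} {a b l : ℝ} (h : GG c n y a b l) (ha : a ≤ s₁) (hb : s₁ ≤ b) :
    A ≤ l + A * dt (pt 1 s₁) y := by
  have hab := h.lt
  have key : ∀ s₂, s₂ ≤ b → s₁ < s₂ → A ≤ l + A * dt (pt 1 s₁) y := by
    intro s₂ h1 h2
    have := soft_plain hc0 hc (A := A) (B := 0) (s₁ := s₁) (s₂ := s₂) hA0 hA1 le_rfl zero_le_one
      (by
        have e : pt 0 s₂ = 0 := by simp [pt]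
        rw [e, add_zero, norm_pt' hA0]; exact hA1) h2 h ha h1
    linarith
  rcases hb.lt_or_eq with hlt | he
  · exact key b le_rfl hlt
  · have := soft_plain hc0 hc (A := 0) (B := A) (s₁ := a) (s₂ := s₁) le_rfl zero_le_one hA0 hA1
      (by
        have e : pt 0 a = 0 := by simp [pt]
        rw [e, zero_add, norm_pt' hA0]; exact hA1) (by rw [he]; exact hab) h le_rfl hb
    linarith

/-- one hard terminal -/
theorem hard_plain {c : ℝ} (hc0 : 0 < c) (hc : c < π / 2) {d : ℝ} {n : ℕ} {y : ℂ} {a b l : ℝ}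
    (h : GG c n y a b l) (ha : a < d) (hb : d ≤ b) : phi c c ≤ l + dt (pt 1 (d + c)) y := by
  have h1 := (certS (c := c) (q := -c) (r := d + c - a) hc0 hc (by linarith)).mirror
    (θ := d + c) (by linarith) (by linarith) h
  rwa [phi_neg, un_pt] at h1

/-- coefficients of two terminals -/
theorem coef {κ p q : ℝ} (hp : 0 ≤ p) (hq : 0 ≤ q) (hpq : 0 < p + q) (hp' : 2 * p + q ≤ π)
    (hq' : p + 2 * q ≤ π) (h0 : 0 ≤ κ) (h1 : κ ≤ 1) : ∃ A B : ℝ, 0 ≤ A ∧ A ≤ 1 ∧ 0 ≤ B ∧ B ≤ 1 ∧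
      A + B = κ * (Real.cos ((p - q) / 2) / Real.cos ((p + q) / 2)) ∧
      ∀ s₁ s₂ θ : ℝ, θ = s₁ + p → s₂ = s₁ + p + q → pt A s₁ + pt B s₂ = pt κ θ := by
  have hpi := Real.pi_pos
  have hpq' : p + q < π := by
    rcases eq_or_lt_of_le hp with h | h
    · rcases eq_or_lt_of_le hq with h' | h'
      · linarith
      · linarith
    · linarith
  have hs : 0 < Real.sin (p + q) := Real.sin_pos_of_pos_of_lt_pi hpq hpq'
  have key : ∀ u v : ℝ, 0 ≤ u → 0 ≤ v → 0 < u + v → u + v < π → u + 2 * v ≤ π →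
      Real.sin v ≤ Real.sin (u + v) := by
    intro u v hu hv huv huv' h
    have e1 : Real.sin (u + v) - Real.sin v = 2 * Real.sin (u / 2) * Real.cos ((u + 2 * v) / 2) := by
      rw [Real.sin_sub_sin]; congr 2 <;> [skip; congr 1] <;> ring_nf
    have h3 : 0 ≤ Real.sin (u / 2) := Real.sin_nonneg_of_nonneg_of_le_pi (by linarith) (by linarith)
    have h4 : 0 ≤ Real.cos ((u + 2 * v) / 2) :=
      Real.cos_nonneg_of_mem_Icc ⟨by linarith, by linarith⟩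
    nlinarith [mul_nonneg h3 h4]
  have hsq := key p q hp hq hpq hpq' hq'
  have hsp := key q p hq hp (by linarith) (by linarith) (by linarith)
  rw [add_comm q p] at hsp
  have hq0 : 0 ≤ Real.sin q := Real.sin_nonneg_of_nonneg_of_le_pi hq (by linarith)
  have hp0 : 0 ≤ Real.sin p := Real.sin_nonneg_of_nonneg_of_le_pi hp (by linarith)
  refine ⟨κ * Real.sin q / Real.sin (p + q), κ * Real.sin p / Real.sin (p + q), by positivity,
    by rw [div_le_one hs]; nlinarith, by positivity, by rw [div_le_one hs]; nlinarith, ?_, ?_⟩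
  · have hc2 : 0 < Real.cos ((p + q) / 2) :=
      Real.cos_pos_of_mem_Ioo ⟨by linarith [Real.pi_pos], by linarith⟩
    have e1 : Real.sin q + Real.sin p =
        2 * Real.sin ((p + q) / 2) * Real.cos ((p - q) / 2) := by
      have e := Real.sin_add (((p + q) / 2)) ((p - q) / 2)
      have e' := Real.sin_sub (((p + q) / 2)) ((p - q) / 2)
      have f : (p + q) / 2 + (p - q) / 2 = p := by ring
      have f' : (p + q) / 2 - (p - q) / 2 = q := by ring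
      rw [f] at e; rw [f'] at e'
      linarith
    have e2 : Real.sin (p + q) = 2 * Real.sin ((p + q) / 2) * Real.cos ((p + q) / 2) := by
      rw [← Real.sin_two_mul]; congr 1; ring
    have hs2 : 0 < Real.sin ((p + q) / 2) :=
      Real.sin_pos_of_pos_of_lt_pi (by linarith) (by linarith)
    have e3 : κ * Real.sin q / Real.sin (p + q) + κ * Real.sin p / Real.sin (p + q) =
        κ * (Real.sin q + Real.sin p) / Real.sin (p + q) := by ring
    rw [e3, e1, e2]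
    field_simp
  · intro s₁ s₂ θ h1 h2
    exact pt_combo (κ := κ) h1 h2 hs.ne' rfl rfl

end Pool.Agent.W_8c5d11_w65
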