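import Pool.Agent.W_8c5d11_h73.HsDef

/-!
MP_8c5d11_gt: maximal distance minimizers. Definitions for the final theorem.
-/

set_option autoImplicit false

open Set Metric MeasureTheory

namespace Pool.Agent.W_8c5d11_w65

/-- `S` is compact and connected (hence nonempty) and its closed `r`-neighbourhood contains `M`. -/
def Covers (M : Set ℂ) (r : ℝ) (S : Set ℂ) : Prop :=
  IsCompact S ∧ IsConnected S ∧ M ⊆ cthickening r S

/-- `S` is an `r`-minimizer for `M`: it has least length among the sets which cover `M`. -/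
def Minimizer (M : Set ℂ) (r : ℝ) (S : Set ℂ) : Prop :=
  Covers M r S ∧ ∀ T : Set ℂ, Covers M r T → μH[1] S ≤ μH[1] T

/-- The rotation of the plane about the origin by the angle `τ`. -/
noncomputable def rotate (τ : ℝ) (z : ℂ) : ℂ := Complex.exp ((τ : ℂ) * Complex.I) * z

/-- the gap for the disc, for `2 * r < R` -/
noncomputable def gap (R r : ℝ) : ℝ :=
  (R - r) ^ 4 / R ^ 3 * (1 - (r / (R - r)) ^ 2) ^ 3 / 4800000

end Pool.Agent.W_8c5d11_w65
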