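import Pool.Agent.W_8c5d11_w65.Def

/-!
MP_8c5d11_gt, strictness for all radii: the Lipschitz properties of the potential and of the
corrected linear forms (helper49, for helper65).
-/

set_option autoImplicit false

open Set
open scoped Real

namespace Pool.Agent.W_8c5d11_w65

open Pool.Agent.W_8c5d11_v22 Pool.Agent.W_8c5d11_h65

namespace WLip

theorem hasDerivAt_max_sq (x : ℝ) : HasDerivAt (fun x : ℝ => max 0 x ^ 2) (2 * max 0 x) x := by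
  rcases lt_trichotomy x 0 with hx | rfl | hx
  · have h : (fun x : ℝ => max 0 x ^ 2) =ᶠ[nhds x] fun _ => 0 := by
      filter_upwards [Iio_mem_nhds hx] with y hy
      rw [max_eq_left (le_of_lt hy)]
      norm_num
    rw [max_eq_left hx.le, mul_zero]
    exact (hasDerivAt_const x (0 : ℝ)).congr_of_eventuallyEq h
  · have h : (fun x : ℝ => max 0 x ^ 2) =O[nhds 0] fun x => ‖x - 0‖ ^ 2 := by
      apply Asymptotics.IsBigO.of_bound 1
      filter_upwards with y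
      rw [sub_zero, one_mul, Real.norm_eq_abs, Real.norm_eq_abs, abs_of_nonneg (by positivity),
        abs_of_nonneg (by positivity), Real.norm_eq_abs]
      apply pow_le_pow_left₀ (le_max_left _ _)
      exact max_le (abs_nonneg y) (le_abs_self y)
    have h1 := (h.hasFDerivAt (by norm_num)).hasDerivAt
    simpa using h1
  · have h : (fun x : ℝ => max 0 x ^ 2) =ᶠ[nhds x] fun x => x ^ 2 := by
      filter_upwards [Ioi_mem_nhds hx] with y hy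
      rw [max_eq_right (le_of_lt hy)]
    rw [max_eq_right hx.le]
    have h1 := (hasDerivAt_pow 2 x).congr_of_eventuallyEq h
    simpa using h1

theorem mul_max (x : ℝ) : x * max 0 x = max 0 x ^ 2 := by
  rcases le_total x 0 with hx | hx
  · rw [max_eq_left hx]; simp
  · rw [max_eq_right hx]; ring

theorem hasDerivAt_max_cube (x : ℝ) : HasDerivAt (fun x : ℝ => max 0 x ^ 3) (3 * max 0 x ^ 2) x := by
  have h : (fun x : ℝ => max 0 x ^ 3) = (fun x => x * max 0 x ^ 2) := by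
    funext y
    have := mul_max y
    linear_combination (-max 0 y) * this
  rw [h]
  have h1 := (hasDerivAt_id' x).mul (hasDerivAt_max_sq x)
  have e : 1 * max 0 x ^ 2 + x * (2 * max 0 x) = 3 * max 0 x ^ 2 := by
    have := mul_max x
    linear_combination 2 * this
  exact h1.congr_deriv e

/-- the corrected form -/
theorem core1 {κ R Y dx dy L m : ℝ} (hκ0 : 0 ≤ κ) (hR : 1 ≤ R) (hκ : κ * (1000 * R ^ 3) ≤ 1)
    (hY : |Y| ≤ R) (hL0 : 0 ≤ L) (hL : dx ^ 2 + dy ^ 2 = L ^ 2) (hm0 : 0 ≤ m) (hmR : m ≤ 1 + R) :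
    |dy + κ * (2 * m * (-dx) * (R + 1 - Y) + m ^ 2 * (-dy))| ≤ (1 - κ * m ^ 2 / 2) * L := by
  rw [abs_le] at hY
  have h1 : m ^ 2 ≤ (1 + R) ^ 2 := pow_le_pow_left₀ hm0 hmR 2
  have hR2 : R ≤ R ^ 2 := by nlinarith
  have hR3 : R ^ 2 ≤ R ^ 3 := by nlinarith [mul_nonneg (sub_nonneg.2 hR) (sq_nonneg R)]
  have hk1 : κ * (3 / 4 * m ^ 2 + 4 * (R + 1 - Y) ^ 2) ≤ 1 := by
    have h2 : (R + 1 - Y) ^ 2 ≤ (2 * R + 1) ^ 2 := pow_le_pow_left₀ (by linarith) (by linarith) 2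
    have h3 : 3 / 4 * m ^ 2 + 4 * (R + 1 - Y) ^ 2 ≤ 1000 * R ^ 3 := by nlinarith
    calc κ * (3 / 4 * m ^ 2 + 4 * (R + 1 - Y) ^ 2) ≤ κ * (1000 * R ^ 3) :=
          mul_le_mul_of_nonneg_left h3 hκ0
      _ ≤ 1 := hκ
  have hk2 : κ * m ^ 2 ≤ 1 := by
    have h6 : m ^ 2 ≤ 1000 * R ^ 3 := by nlinarith
    calc κ * m ^ 2 ≤ κ * (1000 * R ^ 3) := mul_le_mul_of_nonneg_left h6 hκ0
      _ ≤ 1 := hκ
  apply abs_le_of_sq_le_sq _ (mul_nonneg (by linarith) hL0)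
  have e1 : ((1 - κ * m ^ 2) ^ 2 + (2 * κ * m * (R + 1 - Y)) ^ 2) * (dx ^ 2 + dy ^ 2) -
      (dy + κ * (2 * m * (-dx) * (R + 1 - Y) + m ^ 2 * (-dy))) ^ 2 =
      ((1 - κ * m ^ 2) * dx + (2 * κ * m * (R + 1 - Y)) * dy) ^ 2 := by ring
  have h7 : (dy + κ * (2 * m * (-dx) * (R + 1 - Y) + m ^ 2 * (-dy))) ^ 2 ≤
      ((1 - κ * m ^ 2) ^ 2 + (2 * κ * m * (R + 1 - Y)) ^ 2) * (dx ^ 2 + dy ^ 2) := by
    have := sq_nonneg ((1 - κ * m ^ 2) * dx + (2 * κ * m * (R + 1 - Y)) * dy)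
    linarith
  have h8 : (1 - κ * m ^ 2) ^ 2 + (2 * κ * m * (R + 1 - Y)) ^ 2 ≤ (1 - κ * m ^ 2 / 2) ^ 2 := by
    have h9 : κ * m ^ 2 * (κ * (3 / 4 * m ^ 2 + 4 * (R + 1 - Y) ^ 2)) ≤ κ * m ^ 2 * 1 :=
      mul_le_mul_of_nonneg_left hk1 (by positivity)
    linarith
  calc _ ≤ _ := h7
    _ ≤ (1 - κ * m ^ 2 / 2) ^ 2 * (dx ^ 2 + dy ^ 2) :=
      mul_le_mul_of_nonneg_right h8 (by positivity)
    _ = ((1 - κ * m ^ 2 / 2) * L) ^ 2 := by rw [hL]; ring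

/-- the potential -/
theorem core2 {κ X Y dx dy L : ℝ} (hκ0 : 0 ≤ κ) (hL0 : 0 ≤ L) (hL : dx ^ 2 + dy ^ 2 = L ^ 2) :
    |κ / 48 * (3 * max 0 (1 - (X ^ 2 + Y ^ 2)) ^ 2 * (-(2 * X * dx + 2 * Y * dy)))| ≤
      κ / 8 * max 0 (1 - (X ^ 2 + Y ^ 2)) ^ 2 * L := by
  set g := max 0 (1 - (X ^ 2 + Y ^ 2)) with hg
  have e : κ / 48 * (3 * g ^ 2 * (-(2 * X * dx + 2 * Y * dy))) =
      -(κ / 8 * g ^ 2 * (X * dx + Y * dy)) := by ring
  rw [e, abs_neg, abs_mul, abs_of_nonneg (by positivity)]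
  rcases le_total (1 - (X ^ 2 + Y ^ 2)) 0 with h | h
  · have : g = 0 := by rw [hg, max_eq_left h]
    rw [this]
    simp
  · have h1 : |X * dx + Y * dy| ≤ L := by
      apply abs_le_of_sq_le_sq _ hL0
      have e2 : (X ^ 2 + Y ^ 2) * (dx ^ 2 + dy ^ 2) - (X * dx + Y * dy) ^ 2 =
        (X * dy - Y * dx) ^ 2 := by ring
      have e3 := sq_nonneg (X * dy - Y * dx)
      have e4 : (X ^ 2 + Y ^ 2) * (dx ^ 2 + dy ^ 2) ≤ 1 * (dx ^ 2 + dy ^ 2) :=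
        mul_le_mul_of_nonneg_right (by linarith) (by positivity)
      linarith
    exact mul_le_mul_of_nonneg_left h1 (by positivity)

theorem core3 {X Y : ℝ} : max 0 (1 - (X ^ 2 + Y ^ 2)) ^ 2 ≤ 4 * max 0 (1 - X) ^ 2 := by
  have h0 : 0 ≤ max 0 (1 - (X ^ 2 + Y ^ 2)) := le_max_left _ _
  have h2 : max 0 (1 - (X ^ 2 + Y ^ 2)) ≤ 2 * max 0 (1 - X) := by
    have h3 := le_max_left 0 (1 - X)
    have h4 := le_max_right 0 (1 - X)
    apply max_le (by linarith)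
    nlinarith [sq_nonneg Y, sq_nonneg (1 - X)]
  calc _ ≤ (2 * max 0 (1 - X)) ^ 2 := pow_le_pow_left₀ h0 h2 2
    _ = _ := by ring

/-- the estimate of the derivative -/
theorem core {κ R B X Y dx dy L ε : ℝ} (hκ0 : 0 ≤ κ) (hR : 1 ≤ R) (hκ : κ * (1000 * R ^ 3) ≤ 1)
    (hB0 : 0 ≤ B) (hB1 : B ≤ 1) (hXY : X ^ 2 + Y ^ 2 ≤ R ^ 2) (hL0 : 0 ≤ L)
    (hL : dx ^ 2 + dy ^ 2 = L ^ 2) (hε : |ε| ≤ 1) :
    |B * (dy + κ * (2 * max 0 (1 - X) * (-dx) * (R + 1 - Y) + max 0 (1 - X) ^ 2 * (-dy))) +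
      ε * (κ / 48 * (3 * max 0 (1 - (X ^ 2 + Y ^ 2)) ^ 2 * (-(2 * X * dx + 2 * Y * dy))))| ≤ L := by
  have h3 := core3 (X := X) (Y := Y)
  have hQ := core2 (X := X) (Y := Y) hκ0 hL0 hL
  have hX : |X| ≤ R := abs_le_of_sq_le_sq (by linarith [sq_nonneg Y]) (by linarith)
  have hY : |Y| ≤ R := abs_le_of_sq_le_sq (by linarith [sq_nonneg X]) (by linarith)
  rw [abs_le] at hX
  have hm0 : 0 ≤ max 0 (1 - X) := le_max_left _ _
  have hmR : max 0 (1 - X) ≤ 1 + R := max_le (by linarith) (by linarith)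
  have hP := core1 hκ0 hR hκ hY hL0 hL hm0 hmR
  generalize max 0 (1 - X) = m at *
  generalize max 0 (1 - (X ^ 2 + Y ^ 2)) = g at *
  generalize dy + κ * (2 * m * (-dx) * (R + 1 - Y) + m ^ 2 * (-dy)) = p at *
  generalize κ / 48 * (3 * g ^ 2 * (-(2 * X * dx + 2 * Y * dy))) = q at *
  have h4 : κ / 8 * g ^ 2 * L ≤ κ * m ^ 2 / 2 * L := by
    apply mul_le_mul_of_nonneg_right _ hL0
    have := mul_le_mul_of_nonneg_left h3 (show 0 ≤ κ / 8 by positivity)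
    linarith
  have h5 : |B * p| ≤ |p| := by
    rw [abs_mul, abs_of_nonneg hB0]
    exact mul_le_of_le_one_left (abs_nonneg _) hB1
  have h6 : |ε * q| ≤ |q| := by
    rw [abs_mul]
    exact mul_le_of_le_one_left (abs_nonneg _) hε
  have h7 := abs_add_le (B * p) (ε * q)
  linarith

/-- the functions on a segment -/
theorem seg_deriv (κ R B ε x y dx dy s : ℝ) :
    HasDerivAt (fun s : ℝ => B * (y + s * dy + κ * (max 0 (1 - (x + s * dx)) ^ 2 *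
        (R + 1 - (y + s * dy)))) +
      ε * (κ / 48 * max 0 (1 - ((x + s * dx) ^ 2 + (y + s * dy) ^ 2)) ^ 3))
      (B * (dy + κ * (2 * max 0 (1 - (x + s * dx)) * (-dx) * (R + 1 - (y + s * dy)) +
        max 0 (1 - (x + s * dx)) ^ 2 * (-dy))) +
      ε * (κ / 48 * (3 * max 0 (1 - ((x + s * dx) ^ 2 + (y + s * dy) ^ 2)) ^ 2 *
        (-(2 * (x + s * dx) * dx + 2 * (y + s * dy) * dy))))) s := by
  have hx : HasDerivAt (fun s : ℝ => x + s * dx) dx s := by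
    simpa using ((hasDerivAt_id' s).mul_const dx).const_add x
  have hy : HasDerivAt (fun s : ℝ => y + s * dy) dy s := by
    simpa using ((hasDerivAt_id' s).mul_const dy).const_add y
  have hx1 : HasDerivAt (fun s : ℝ => 1 - (x + s * dx)) (-dx) s := by
    simpa using hx.const_sub 1
  have hm : HasDerivAt (fun s : ℝ => max 0 (1 - (x + s * dx)) ^ 2)
      (2 * max 0 (1 - (x + s * dx)) * (-dx)) s :=
    HasDerivAt.comp (h₂ := fun t : ℝ => max 0 t ^ 2) s (hasDerivAt_max_sq _) hx1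
  have hK : HasDerivAt (fun s : ℝ => R + 1 - (y + s * dy)) (-dy) s := by
    simpa using hy.const_sub (R + 1)
  have hq : HasDerivAt (fun s : ℝ => 1 - ((x + s * dx) ^ 2 + (y + s * dy) ^ 2))
      (-(2 * (x + s * dx) * dx + 2 * (y + s * dy) * dy)) s := by
    have := ((hx.pow 2).add (hy.pow 2)).const_sub 1
    simpa using this
  have hg : HasDerivAt (fun s : ℝ => max 0 (1 - ((x + s * dx) ^ 2 + (y + s * dy) ^ 2)) ^ 3)
      (3 * max 0 (1 - ((x + s * dx) ^ 2 + (y + s * dy) ^ 2)) ^ 2 *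
        (-(2 * (x + s * dx) * dx + 2 * (y + s * dy) * dy))) s :=
    HasDerivAt.comp (h₂ := fun t : ℝ => max 0 t ^ 3) s (hasDerivAt_max_cube _) hq
  exact ((hy.add ((hm.mul hK).const_mul κ)).const_mul B).add ((hg.const_mul (κ / 48)).const_mul ε)

/-- the value at a point -/
noncomputable def val (κ R B ε x y : ℝ) : ℝ :=
  B * (y + κ * (max 0 (1 - x) ^ 2 * (R + 1 - y))) +
    ε * (κ / 48 * max 0 (1 - (x ^ 2 + y ^ 2)) ^ 3)

theorem seg_lip {κ R B ε x y x' y' L : ℝ} (hκ0 : 0 ≤ κ) (hR : 1 ≤ R)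
    (hκ : κ * (1000 * R ^ 3) ≤ 1) (hB0 : 0 ≤ B) (hB1 : B ≤ 1) (h1 : x ^ 2 + y ^ 2 ≤ R ^ 2)
    (h2 : x' ^ 2 + y' ^ 2 ≤ R ^ 2) (hL0 : 0 ≤ L)
    (hL : (x' - x) ^ 2 + (y' - y) ^ 2 = L ^ 2) (hε : |ε| ≤ 1) :
    |val κ R B ε x' y' - val κ R B ε x y| ≤ L := by
  have key := Convex.norm_image_sub_le_of_norm_hasDerivWithin_le (𝕜 := ℝ)
    (f := fun s : ℝ => val κ R B ε (x + s * (x' - x)) (y + s * (y' - y)))
    (f' := fun s : ℝ => _) (C := L) (s := Icc (0 : ℝ) 1) (x := 0) (y := 1)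
    (fun s _ => (seg_deriv κ R B ε x y (x' - x) (y' - y) s).hasDerivWithinAt)
    (fun s hs => ?_) (convex_Icc 0 1) (by simp) (by simp)
  · simpa [Real.norm_eq_abs] using key
  · rw [Real.norm_eq_abs]
    apply core hκ0 hR hκ hB0 hB1 _ hL0 hL hε
    have e : (x + s * (x' - x)) ^ 2 + (y + s * (y' - y)) ^ 2 =
        (1 - s) * (x ^ 2 + y ^ 2) + s * (x' ^ 2 + y' ^ 2) -
          s * (1 - s) * ((x' - x) ^ 2 + (y' - y) ^ 2) := by ring
    rw [e]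
    have h3 : 0 ≤ s * (1 - s) * ((x' - x) ^ 2 + (y' - y) ^ 2) :=
      mul_nonneg (mul_nonneg hs.1 (by linarith [hs.2])) (by positivity)
    have h4 : (1 - s) * (x ^ 2 + y ^ 2) ≤ (1 - s) * R ^ 2 :=
      mul_le_mul_of_nonneg_left h1 (by linarith [hs.2])
    have h5 : s * (x' ^ 2 + y' ^ 2) ≤ s * R ^ 2 := mul_le_mul_of_nonneg_left h2 hs.1
    linarith

/-- the frame -/
theorem frame (ν : ℝ) (z : ℂ) : dt (pt 1 ν) z ^ 2 + dt (pt 1 (ν + π / 2)) z ^ 2 = ‖z‖ ^ 2 := by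
  have e : ‖z‖ ^ 2 = z.re ^ 2 + z.im ^ 2 := by
    rw [Complex.sq_norm, Complex.normSq_apply]; ring
  rw [e]
  simp only [dt, pt_re, pt_im, Real.cos_add_pi_div_two, Real.sin_add_pi_div_two, one_mul]
  have := Real.sin_sq_add_cos_sq ν
  linear_combination (z.re ^ 2 + z.im ^ 2) * this

theorem dt_sub_r (w y y' : ℂ) : dt w (y - y') = dt w y - dt w y' := by
  simp only [dt, Complex.sub_re, Complex.sub_im]; ring

theorem val_eq (b ν B ε : ℝ) (z : ℂ) :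
    val (kp b) (1 / Real.sin b) B ε (dt (pt 1 ν) z) (dt (pt 1 (ν + π / 2)) z) =
      B * qP b ν z + ε * GP b z := by
  unfold val qP GP ee
  rw [frame]
  ring

end WLip

open WLip

theorem sin_c_pos {b : ℝ} (h0 : 0 < b) (h1 : b < π / 2) : 0 < Real.sin b :=
  Real.sin_pos_of_pos_of_lt_pi h0 (by linarith [Real.pi_pos])

theorem kp_nonneg {b : ℝ} (h0 : 0 < b) (h1 : b < π / 2) : 0 ≤ kp b := by
  have := sin_c_pos h0 h1
  unfold kp
  positivity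

theorem kp_mul {b : ℝ} (h0 : 0 < b) (h1 : b < π / 2) :
    kp b * (100000 * (1 / Real.sin b) ^ 3) = 1 := by
  have := sin_c_pos h0 h1
  unfold kp
  field_simp

theorem kp_mul' {b : ℝ} (h0 : 0 < b) (h1 : b < π / 2) :
    kp b * (1000 * (1 / Real.sin b) ^ 3) ≤ 1 := by
  have h := kp_mul h0 h1
  have h2 := kp_nonneg h0 h1
  have h3 := sin_c_pos h0 h1
  have h4 : 0 ≤ kp b * (1 / Real.sin b) ^ 3 := by positivity
  linarith

theorem one_le_inv_sin' {b : ℝ} (h0 : 0 < b) (h1 : b < π / 2) : 1 ≤ 1 / Real.sin b := by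
  rw [le_div_iff₀ (sin_c_pos h0 h1)]
  linarith [Real.sin_le_one b]

theorem qP_lip {b ν B : ℝ} {z z' : ℂ} (h0 : 0 < b) (h1 : b < π / 2) (hB0 : 0 ≤ B) (hB1 : B ≤ 1)
    (hz : ‖z‖ ≤ 1 / Real.sin b) (hz' : ‖z'‖ ≤ 1 / Real.sin b) :
    |B * qP b ν z - B * qP b ν z'| ≤ dist z z' - |GP b z - GP b z'| := by
  have hR := one_le_inv_sin' h0 h1
  have key : ∀ ε : ℝ, |ε| ≤ 1 →
      |(B * qP b ν z + ε * GP b z) - (B * qP b ν z' + ε * GP b z')| ≤ dist z z' := by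
    intro ε hε
    rw [← val_eq, ← val_eq]
    apply seg_lip (kp_nonneg h0 h1) hR (kp_mul' h0 h1) hB0 hB1 _ _ dist_nonneg _ hε
    · rw [frame]
      exact pow_le_pow_left₀ (norm_nonneg _) hz' 2
    · rw [frame]
      exact pow_le_pow_left₀ (norm_nonneg _) hz 2
    · rw [← dt_sub_r, ← dt_sub_r, frame, dist_eq_norm]
  have k1 := key 1 (by norm_num)
  have k2 := key (-1) (by norm_num)
  rw [abs_le] at k1 k2
  rcases abs_cases (B * qP b ν z - B * qP b ν z') with h | h <;>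
    rcases abs_cases (GP b z - GP b z') with h' | h' <;> rw [h.1, h'.1] <;> linarith

theorem qM_conj (b ν : ℝ) (z : ℂ) : qM b (-ν) ((starRingEnd ℂ) z) = qP b ν z := by
  unfold qM qP
  have e : pt 1 (-ν - π / 2) = (starRingEnd ℂ) (pt 1 (ν + π / 2)) := by
    rw [conj_pt]; congr 1; ring
  rw [ee_conj, e, dt_conj]

theorem qP_conj (b ν : ℝ) (z : ℂ) : qP b (-ν) ((starRingEnd ℂ) z) = qM b ν z := by
  have h := qM_conj b (-ν) ((starRingEnd ℂ) z)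
  rw [neg_neg, Complex.conj_conj] at h
  exact h.symm

theorem qM_lip {b ν B : ℝ} {z z' : ℂ} (h0 : 0 < b) (h1 : b < π / 2) (hB0 : 0 ≤ B) (hB1 : B ≤ 1)
    (hz : ‖z‖ ≤ 1 / Real.sin b) (hz' : ‖z'‖ ≤ 1 / Real.sin b) :
    |B * qM b ν z - B * qM b ν z'| ≤ dist z z' - |GP b z - GP b z'| := by
  have h := qP_lip (ν := -ν) (z := (starRingEnd ℂ) z) (z' := (starRingEnd ℂ) z') h0 h1 hB0 hB1
    (by rw [RCLike.norm_conj]; exact hz) (by rw [RCLike.norm_conj]; exact hz')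
  rw [qP_conj, qP_conj, GP_conj, GP_conj] at h
  have e : dist ((starRingEnd ℂ) z) ((starRingEnd ℂ) z') = dist z z' := by
    rw [dist_eq_norm, dist_eq_norm, ← map_sub, RCLike.norm_conj]
  rwa [e] at h

namespace WLip

theorem core4 {κ X Y dx dy L : ℝ} (hκ0 : 0 ≤ κ) (hL0 : 0 ≤ L) (hL : dx ^ 2 + dy ^ 2 = L ^ 2) :
    |(0:ℝ) * (dy + κ * (2 * max 0 (1 - X) * (-dx) * (0 + 1 - Y) + max 0 (1 - X) ^ 2 * (-dy))) +
      1 * (κ / 48 * (3 * max 0 (1 - (X ^ 2 + Y ^ 2)) ^ 2 * (-(2 * X * dx + 2 * Y * dy))))| ≤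
      κ * L := by
  have hQ := core2 (X := X) (Y := Y) hκ0 hL0 hL
  rw [zero_mul, zero_add, one_mul]
  apply hQ.trans
  have h1 : max 0 (1 - (X ^ 2 + Y ^ 2)) ^ 2 ≤ 1 := by
    have h2 : max 0 (1 - (X ^ 2 + Y ^ 2)) ≤ 1 :=
      max_le zero_le_one (by linarith [sq_nonneg X, sq_nonneg Y])
    exact pow_le_one₀ (le_max_left _ _) h2
  apply mul_le_mul_of_nonneg_right _ hL0
  have := mul_le_mul_of_nonneg_left h1 (show 0 ≤ κ / 8 by positivity)
  linarith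

end WLip

theorem GP_lip {b : ℝ} {z z' : ℂ} (h0 : 0 < b) (h1 : b < π / 2) :
    |GP b z - GP b z'| ≤ kp b * dist z z' := by
  have hk := kp_nonneg h0 h1
  have hL : (dt (pt 1 0) z - dt (pt 1 0) z') ^ 2 +
      (dt (pt 1 (0 + π / 2)) z - dt (pt 1 (0 + π / 2)) z') ^ 2 = dist z z' ^ 2 := by
    rw [← dt_sub_r, ← dt_sub_r, frame, dist_eq_norm]
  have key := Convex.norm_image_sub_le_of_norm_hasDerivWithin_le (𝕜 := ℝ)
    (f := fun s : ℝ => val (kp b) 0 0 1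
      (dt (pt 1 0) z' + s * (dt (pt 1 0) z - dt (pt 1 0) z'))
      (dt (pt 1 (0 + π / 2)) z' + s * (dt (pt 1 (0 + π / 2)) z - dt (pt 1 (0 + π / 2)) z')))
    (f' := fun s : ℝ => _) (C := kp b * dist z z') (s := Icc (0 : ℝ) 1) (x := 0) (y := 1)
    (fun s _ => (seg_deriv (kp b) 0 0 1 (dt (pt 1 0) z') (dt (pt 1 (0 + π / 2)) z')
      (dt (pt 1 0) z - dt (pt 1 0) z')
      (dt (pt 1 (0 + π / 2)) z - dt (pt 1 (0 + π / 2)) z') s).hasDerivWithinAt)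
    (fun s hs => ?_) (convex_Icc 0 1) (by simp) (by simp)
  · simp only [one_mul, zero_mul, add_zero, add_sub_cancel, sub_zero, norm_one, mul_one,
      Real.norm_eq_abs] at key
    have e : ∀ y : ℂ, val (kp b) 0 0 1 (dt (pt 1 0) y) (dt (pt 1 (0 + π / 2)) y) = GP b y := by
      intro y
      unfold val GP
      rw [frame]
      ring
    rw [e, e] at key
    exact key
  · rw [Real.norm_eq_abs]
    exact core4 hk dist_nonneg hL

end Pool.Agent.W_8c5d11_w65
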