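import Pool.Agent.W_8c5d11_w65.Bas
import Pool.Agent.W_8c5d11_w65.Lip

/-!
MP_8c5d11_gt: the Lipschitz properties of the corrected linear forms, all `0 < r < R`.
-/

set_option autoImplicit false

open Set
open scoped Real

namespace Pool.Agent.W_8c5d11_w65

theorem lipW {c : ℝ} (hc0 : 0 < c) (hc : c < π / 2) : LipW c where
  G _ _ := GP_lip hc0 hc
  P _ _ _ _ h1 h2 h3 h4 := qP_lip hc0 hc h1 h2 h3 h4

end Pool.Agent.W_8c5d11_w65
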