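import Pool.Agent.W_8c5d11_w65.K
import Pool.Agent.W_8c5d11_h65.UTop
import Pool.Agent.W_8c5d11_f73.Top

/-!
MP_8c5d11_gt: strictness for all `0 < r < R`. Three intervals at the root.
-/

set_option autoImplicit false

open Set
open scoped Real

namespace Pool.Agent.W_8c5d11_w65

open Pool.Agent.W_8c5d11_v22 Pool.Agent.W_8c5d11_f73
open Pool.Agent.W_8c5d11_h65 (ee fS dt_pt_mul tri_zero tan_le_half)

theorem Wd.shift {c : ℝ} {n : ℕ} {y : ℂ} {a b l k : ℝ} (h : Wd c n y a b l k) :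
    Wd c n y (a + 2 * π) (b + 2 * π) l k := by
  induction h with
  | leaf h h' hc =>
    refine Wd.leaf (by linarith) h' fun t ht => ?_
    have h1 := hc (t - 2 * π) ⟨by linarith [ht.1], by linarith [ht.2]⟩
    rwa [← pt_shift, sub_add_cancel] at h1
  | mono _ ih => exact Wd.mono ih
  | ext h _ ih => exact Wd.ext h ih
  | split h1 h2 _ _ ih1 ih2 => exact Wd.split (by linarith) (by linarith) ih1 ih2

/-- Three intervals which are not short, with a margin. -/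
def TopM (c : ℝ) : Prop :=
  ∀ (n : ℕ) (y : ℂ) (a b d l₁ l₂ l₃ : ℝ), GG c n y a b l₁ → GG c n y b d l₂ →
    GG c n y d (a + 2 * π) l₃ → b - a ≤ π → d - b ≤ π → a + 2 * π - d ≤ π → 1 / 2 ≤ b - a →
    1 / 2 ≤ d - b → 1 / 2 ≤ a + 2 * π - d → 2 * Lam c + 1 / 250 ≤ l₁ + l₂ + l₃

/-- the last interval is short -/
theorem top_smallW {c : ℝ} (hc0 : 0 < c) (hc : c < π / 2) (L : LipW c) (M : MidM c) {n : ℕ} {y : ℂ}
    {a b d l₁ l₂ l₃ k₁ k₂ k₃ : ℝ} (G1 : Wd c n y a b l₁ k₁) (G2 : Wd c n y b d l₂ k₂)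
    (G3 : Wd c n y d (a + 2 * π) l₃ k₃) (h1 : b - a ≤ π) (h2 : d - b ≤ π)
    (hs : a + 2 * π - d ≤ 1 / 2) : 2 * Lam c ≤ k₁ + k₂ + k₃ := by
  have hpi := Real.pi_gt_d2
  have h3 : d < a + 2 * π := G3.toG.lt
  obtain ⟨k, hk⟩ : ∃ k, k = (a + 2 * π - d) / 2 := ⟨_, rfl⟩
  have hk0 : 0 < k := by linarith
  have hk1 : k ≤ 1 / 4 := by linarith
  have hck : 0 < Real.cos k := Real.cos_pos_of_mem_Ioo ⟨by linarith, by linarith⟩
  have htan : k ≤ Real.tan k := Real.le_tan hk0.le (by linarith)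
  have htan1 := tan_le_half hk0.le hk1
  have e1 := KW hc0 hc L M n y a b a b l₁ k₁ le_rfl le_rfl (by linarith) h1 G1
  have e2 := (KW hc0 hc L M n).mirror (g := b) (d := d) le_rfl le_rfl (by linarith) h2 G2
  have e3 := softW hc0 hc L G3 d (a + 2 * π) (Real.tan k) (Real.tan k) (1 / 10) (1 / 10) le_rfl
    h3.le le_rfl (by linarith) (by linarith) (by norm_num) (by norm_num)
    (by linarith [kp_le hc0 hc])
  have h6 := qP_le (c := c) (ν := a) (ν' := a) hc0 hc G1.norm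
  have h7 := qM_le (c := c) (ν := d) (ν' := d) hc0 hc G1.norm
  rw [sub_self] at h6 h7
  have h8 := congrArg (fun w => dt w y) (tri_zero hk hck.ne')
  simp only [dt_add_left] at h8
  rw [dt_pt_mul (Real.tan k) d, dt_pt_mul (Real.tan k) (a + 2 * π)] at h8
  have h9 : dt (0 : ℂ) y = 0 := by simp [dt]
  rw [h9] at h8
  have h10 : ee (a + 2 * π) y = ee a y := by
    unfold ee
    rw [pt_shift]
  unfold fS at e3
  rw [h10] at e3
  unfold Lam
  linarith

/-- **Three intervals at the root.** -/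
theorem top_W {c : ℝ} (hc0 : 0 < c) (hc : c < π / 2) (L : LipW c) (M : MidM c) (T : TopM c)
    {n : ℕ} {y : ℂ} {a b d l₁ l₂ l₃ k₁ k₂ k₃ : ℝ} (G1 : Wd c n y a b l₁ k₁)
    (G2 : Wd c n y b d l₂ k₂) (G3 : Wd c n y d (a + 2 * π) l₃ k₃) (h1 : b - a ≤ π)
    (h2 : d - b ≤ π) (h3 : a + 2 * π - d ≤ π) : 2 * Lam c ≤ k₁ + k₂ + k₃ := by
  rcases le_or_gt (a + 2 * π - d) (1 / 2) with s1 | s1
  · exact top_smallW hc0 hc L M G1 G2 G3 h1 h2 s1
  rcases le_or_gt (b - a) (1 / 2) with s2 | s2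
  · have := top_smallW hc0 hc L M G2 G3 G1.shift h2 h3 (by linarith)
    linarith
  rcases le_or_gt (d - b) (1 / 2) with s3 | s3
  · have := top_smallW hc0 hc L M G3 G1.shift G2.shift h3 (by linarith) (by linarith)
    linarith
  have k := T n y a b d l₁ l₂ l₃ G1.toG G2.toG G3.toG h1 h2 h3 s2.le s3.le s1.le
  have e1 := (G1.nonneg hc0 hc L).1
  have e2 := (G2.nonneg hc0 hc L).1
  have e3 := (G3.nonneg hc0 hc L).1
  have e4 := kp_le hc0 hc
  have e5 := kp_pos hc0 hc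
  have hpi := Real.pi_lt_d2
  have e6 := phi_cc_le_one hc0 hc
  have e7 : (1 - kp c) * (2 * Lam c + 1 / 250) ≤ (1 - kp c) * (l₁ + l₂ + l₃) :=
    mul_le_mul_of_nonneg_left k (by linarith)
  have e8 : kp c * (2 * Lam c + 1 / 250) ≤ kp c * 20 :=
    mul_le_mul_of_nonneg_left (by unfold Lam; linarith) e5.le
  linarith

end Pool.Agent.W_8c5d11_w65
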