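import Pool.Agent.W_8c5d11_w65.MargK
import Pool.Agent.W_8c5d11_w65.Top

/-!
MP_8c5d11_gt: strictness for all `0 < r < R`. The hypothesis `TopM`.
-/

set_option autoImplicit false

open Set
open scoped Real

namespace Pool.Agent.W_8c5d11_w65

theorem topM {c : ℝ} (hc0 : 0 < c) (hc : c < π / 2) : TopM c :=
  fun _ _ _ _ _ _ _ _ G1 G2 G3 h1 h2 h3 g1 g2 g3 =>
    top_all_m hc0 hc G1 G2 G3 (by linarith) (by linarith) (by linarith) h1 h2 h3

end Pool.Agent.W_8c5d11_w65
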