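import Pool.Agent.W_8c5d11_v22.StrictW
import Pool.Agent.W_8c5d11_w65.LipI
import Pool.Agent.W_8c5d11_w65.MargT

/-!
MP_8c5d11_gt: strictness for all `0 < r < R`. The final assembly.
-/

set_option autoImplicit false

open Set Metric MeasureTheory
open scoped Real ENNReal

namespace Pool.Agent.W_8c5d11_w65

open Pool.Agent.W_8c5d11_v22 Pool.Agent.W_8c5d11_f73
open Pool.Agent.W_8c5d11_h73 (hlen)

theorem pot_all {c : ℝ} (hc0 : 0 < c) (hc : c < π / 2) (z z' : ℂ) :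
    |GP c z - GP c z'| ≤ dist z z' := by
  refine ((lipW hc0 hc).G z z').trans ?_
  have h1 := kp_le hc0 hc
  have h2 : 0 ≤ dist z z' := dist_nonneg
  nlinarith

theorem top_any {c : ℝ} (hc0 : 0 < c) (hc : c < π / 2) (n m p : ℕ) (y : ℂ)
    (a b d l₁ l₂ l₃ k₁ k₂ k₃ : ℝ) (G1 : Wd c n y a b l₁ k₁) (G2 : Wd c m y b d l₂ k₂)
    (G3 : Wd c p y d (a + 2 * π) l₃ k₃) (h1 : b < a + π) (h2 : d < b + π) (h3 : a + π < d) :
    2 * Lam c ≤ k₁ + k₂ + k₃ :=
  top_W hc0 hc (lipW hc0 hc) (midM hc0 hc) (topM hc0 hc)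
    (G1.up ((le_max_left n m).trans (le_max_left _ p)))
    (G2.up ((le_max_right n m).trans (le_max_left _ p)))
    (G3.up (le_max_right _ p)) (by linarith) (by linarith) (by linarith)

/-- **Strictness for all `0 < r < R`.** -/
theorem strict_all {R r : ℝ} {S : Set ℂ} {z₀ : ℂ} (hr : 0 < r) (hrR : r < R) (hc : IsCompact S)
    (hS : IsConnected S) (hcov : sphere (0 : ℂ) R ⊆ cthickening r S) (hz₀ : z₀ ∈ S)
    (hz : ‖z₀‖ < R - r) : ENNReal.ofReal (hlen R r) < μH[1] S :=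
  strict_of_top (fun _ h1 h2 => pot_all h1 h2) (fun _ h1 h2 => top_any h1 h2) hr hrR hc hS hcov
    hz₀ hz

end Pool.Agent.W_8c5d11_w65
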