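import Pool.Agent.W_8c5d11_w65.Fin
import Pool.Agent.W_8c5d11_w65.DefM
import Pool.Agent.W_8c5d11_h73.Hs11
import Pool.Agent.W_8c5d11_f73.Inst

/-!
MP_8c5d11_gt: the least length and the minimizers of the circle for all `0 < r < R`, the minimizers of
the disc for `R ≤ 2 * r`.
-/

set_option autoImplicit false

open Set Metric MeasureTheory
open scoped Real ENNReal

namespace Pool.Agent.W_8c5d11_w65

open Pool.Agent.W_8c5d11_h73

theorem circle_lower {R r : ℝ} (hr : 0 < r) (hR : r < R) {S : Set ℂ}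
    (h : Covers (sphere 0 R) r S) : ENNReal.ofReal (hlen R r) ≤ μH[1] S :=
  Pool.Agent.W_8c5d11_f73.lower_all hr hR h.1 h.2.1 h.2.2

theorem circle_eq {R r : ℝ} (hr : 0 < r) (hR : r < R) {S : Set ℂ}
    (h : Covers (sphere 0 R) r S) (he : μH[1] S = ENNReal.ofReal (hlen R r)) :
    ∃ τ : ℝ, S = rot τ '' horseshoe R r := by
  obtain ⟨hc, hS, hcov⟩ := h
  have h1 : S \ ball 0 (R - r) = S := by
    refine sdiff_eq_left.2 (Set.disjoint_left.2 fun z hz hz' => ?_)
    exact absurd he (strict_all hr hR hc hS hcov hz (mem_ball_zero_iff.1 hz')).ne'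
  exact unique hr hR ⟨hc, hS, by rw [h1]; exact hS.isPreconnected, hcov⟩ he

theorem covers_rot {R r : ℝ} (hr : 0 < r) (hR : r < R) (τ : ℝ) :
    Covers (sphere 0 R) r (rot τ '' horseshoe R r) := by
  obtain ⟨⟨h1, h2, h3, h4⟩, h5⟩ := adm_rot hr hR τ
  exact ⟨h1, h2, h4⟩

theorem length_rot {R r : ℝ} (hr : 0 < r) (hR : r < R) (τ : ℝ) :
    μH[1] (rot τ '' horseshoe R r) = ENNReal.ofReal (hlen R r) :=
  (adm_rot hr hR τ).2

/-- **The minimizers of the circle.** -/
theorem circle_min {R r : ℝ} (hr : 0 < r) (hR : r < R) (S : Set ℂ) :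
    Minimizer (sphere 0 R) r S ↔ ∃ τ : ℝ, S = rot τ '' horseshoe R r := by
  constructor
  · rintro ⟨h1, h2⟩
    refine circle_eq hr hR h1 (le_antisymm ?_ (circle_lower hr hR h1))
    rw [← length_rot hr hR 0]
    exact h2 _ (covers_rot hr hR 0)
  · rintro ⟨τ, rfl⟩
    refine ⟨covers_rot hr hR τ, fun T hT => ?_⟩
    rw [length_rot hr hR τ]
    exact circle_lower hr hR hT

/-- **The minimizers of the disc for `R ≤ 2 * r`.** -/
theorem disc_min {R r : ℝ} (hr : 0 < r) (hR : r < R) (h2r : R ≤ 2 * r) (S : Set ℂ) :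
    Minimizer (closedBall 0 R) r S ↔ ∃ τ : ℝ, S = rot τ '' horseshoe R r := by
  have hcov : ∀ τ : ℝ, Covers (closedBall 0 R) r (rot τ '' horseshoe R r) := fun τ =>
    ⟨(covers_rot hr hR τ).1, (covers_rot hr hR τ).2.1, fun x hx =>
      rot_cov hr hR τ (mem_closedBall_zero_iff.1 hx) (Or.inr h2r)⟩
  have hsub : ∀ T : Set ℂ, Covers (closedBall 0 R) r T → Covers (sphere 0 R) r T := fun T hT =>
    ⟨hT.1, hT.2.1, sphere_subset_closedBall.trans hT.2.2⟩
  constructor
  · rintro ⟨h1, h2⟩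
    refine circle_eq hr hR (hsub S h1) (le_antisymm ?_ (circle_lower hr hR (hsub S h1)))
    rw [← length_rot hr hR 0]
    exact h2 _ (hcov 0)
  · rintro ⟨τ, rfl⟩
    refine ⟨hcov τ, fun T hT => ?_⟩
    rw [length_rot hr hR τ]
    exact circle_lower hr hR (hsub T hT)

end Pool.Agent.W_8c5d11_w65
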