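import Pool.Agent.W_8c5d11_w65.Bas
import Pool.Agent.W_8c5d11_h65.UIneq

/-!
MP_8c5d11_gt: strictness for all `0 < r < R`. The bound for intervals with one exact end.
-/

set_option autoImplicit false

open Set
open scoped Real

namespace Pool.Agent.W_8c5d11_w65

open Pool.Agent.W_8c5d11_v22 Pool.Agent.W_8c5d11_f73
open Pool.Agent.W_8c5d11_h65 (ee ee_nonneg ee_conj fS abs_dt_pt_le pt_combo dt_pt_mul abs_ee_sub
  norm_pt_one chord chord' chord_value half_le_tan two_sin_le_one tan_m chord_sum_le)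

/-- Splits in the middle, with a margin. -/
def MidM (c : ℝ) : Prop :=
  ∀ (n : ℕ) (y : ℂ) (θ a b l m s A T : ℝ), 0 ≤ A → A ≤ π / 6 + c → 0 ≤ T → T ≤ π / 6 + c →
    (A ≤ π / 6 ∨ T ≤ π / 6) → θ - π / 2 + A < s → s < θ + π / 2 - T →
    (A ≤ π / 6 → π / 3 - A ≤ s - (θ - π / 2 + A)) →
    (T ≤ π / 6 → π / 3 - T ≤ θ + π / 2 - T - s) → a ≤ θ - π / 2 + A →
    θ + π / 2 - T ≤ b → GG c n y a s l → GG c n y s b m →
    Lam c - A - T + min A T / 2 + 1 / 250 ≤ l + m + dt (un θ) y

/-- the bound for intervals with exact near end, with the corrected linear form -/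
def KWP (c : ℝ) (n : ℕ) : Prop :=
  ∀ (y : ℂ) (g d a b l k : ℝ), a ≤ g → d ≤ b → π / 2 - c ≤ d - g → d - g ≤ π →
    Wd c n y a b l k → d - g - π / 2 + c + phi c c - qP c g y ≤ k

theorem KWP.mirror {c : ℝ} {n : ℕ} (h : KWP c n) {y : ℂ} {g d a b l k : ℝ} (h1 : a ≤ g)
    (h2 : d ≤ b) (h3 : π / 2 - c ≤ d - g) (h4 : d - g ≤ π) (hG : Wd c n y a b l k) :
    d - g - π / 2 + c + phi c c - qM c d y ≤ k := by
  have h5 := h _ (-d) (-g) (-b) (-a) l k (by linarith) (by linarith) (by linarith) (by linarith)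
    hG.conj
  rw [qP_conj2] at h5
  linarith

variable {c : ℝ} {n : ℕ} {y : ℂ} {g d a b l k l' k' s V : ℝ}

/-- plain bound, exact near end -/
theorem K_plain (hc0 : 0 < c) (hc : c < π / 2) (h : GG c n y a b l) (ha : a ≤ g) (hb : d ≤ b)
    (h1 : π / 2 - c ≤ d - g) (h2 : d - g ≤ π) :
    d - g - π / 2 + c + phi c c ≤ l + dt (pt 1 (g + π / 2)) y := by
  have k1 := (K_all hc0 hc n).mirror (θ := g + π / 2) (A := π - (d - g)) (by linarith)
    (by linarith) (by linarith) (by linarith) h
  rw [un_pt] at k1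
  unfold Lam at k1
  linarith

/-- plain bound, exact far end -/
theorem K_plain' (hc0 : 0 < c) (hc : c < π / 2) (h : GG c n y a b l) (ha : a ≤ g) (hb : d ≤ b)
    (h1 : π / 2 - c ≤ d - g) (h2 : d - g ≤ π) :
    d - g - π / 2 + c + phi c c ≤ l + dt (pt 1 (d - π / 2)) y := by
  have k1 := K_all hc0 hc n y (d - π / 2) a b l (π - (d - g)) (by linarith)
    (by linarith) (by linarith) (by linarith) h
  rw [un_pt] at k1
  unfold Lam at k1
  linarith

theorem phi_cc_le_one (hc0 : 0 < c) (hc : c < π / 2) : phi c c ≤ 1 := by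
  have := phi_cc_le hc0 hc
  linarith

/-- from a plain bound with a margin -/
theorem of_plain (hc0 : 0 < c) (hc : c < π / 2) (L : LipW c) {θ : ℝ} (G1 : Wd c n y a s l k)
    (G2 : Wd c n y s b l' k') (hV : V ≤ 8) (h : V + 1 / 250 ≤ l + l' + dt (pt 1 θ) y) :
    V - dt (pt 1 θ) y ≤ k + k' := by
  have h1 := (G1.nonneg hc0 hc L).1
  have h2 := (G2.nonneg hc0 hc L).1
  have h3 := kp_ten hc0 hc
  have h4 := kp_pos hc0 hc
  have h5 := kp_le hc0 hc
  have h6 := (abs_le.1 (abs_dt_pt_le θ y)).1
  have h7 := G1.norm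
  have h8 : kp c * (V + 1 / 250 - dt (pt 1 θ) y) ≤ kp c * (10 + 1 / Real.sin c) :=
    mul_le_mul_of_nonneg_left (by linarith) h4.le
  have h9 : (1 - kp c) * (V + 1 / 250 - dt (pt 1 θ) y) ≤ (1 - kp c) * (l + l') :=
    mul_le_mul_of_nonneg_left (by linarith) (by linarith)
  nlinarith

/-- split near the exact end -/
theorem caseA (hc0 : 0 < c) (hc : c < π / 2) (L : LipW c) (ih : KWP c n) (ha : a ≤ g)
    (hb : d ≤ b) (h2 : d - g ≤ π) (hs0 : g < s) (hz : s - g ≤ d - g - π / 2 + c)
    (h3 : s - g ≤ π / 3) (G1 : Wd c n y a s l k) (G2 : Wd c n y s b l' k') :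
    d - g - π / 2 + c + phi c c - dt (pt 1 (g + π / 2)) y ≤ k + k' := by
  have hpi := Real.pi_pos
  have hpi' := Real.pi_lt_d2
  have hcs : Real.cos ((s - g) / 2) ≠ 0 :=
    (Real.cos_pos_of_mem_Ioo ⟨by linarith, by linarith⟩).ne'
  have hq1 := two_sin_le_one (x := (s - g) / 2) (by linarith) (by linarith)
  have hq0 : 0 ≤ Real.sin ((s - g) / 2) :=
    Real.sin_nonneg_of_nonneg_of_le_pi (by linarith) (by linarith)
  obtain ⟨A, B, hA0, hA1, hB0, hB1, hAB, hAB'⟩ := coef (κ := 2 * Real.sin ((s - g) / 2))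
    (p := (s - g) / 2) (q := (s - g) / 2) (by linarith) (by linarith) (by linarith)
    (by linarith) (by linarith) (by linarith) hq1
  have hv := chord_value (s := s - g) (σ := 0) hcs
  rw [sub_zero, add_zero, Real.sin_zero, Real.cos_zero] at hv
  rw [hv] at hAB
  have h4 := hAB' g s ((g + s) / 2) (by ring) (by ring)
  have h5 : pt (2 * Real.sin ((s - g) / 2)) ((g + s) / 2) + pt 1 (s + π / 2) =
      pt 1 (g + π / 2) := chord (by congr 2; ring) (by ring)
  have h7 : dt (pt 1 (g + π / 2)) y = A * dt (pt 1 g) y + B * dt (pt 1 s) y +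
      dt (pt 1 (s + π / 2)) y := by
    rw [← h5, dt_add_left, ← h4, dt_add_left, dt_pt_mul A, dt_pt_mul B]
  have h8 := half_le_tan (x := s - g) (by linarith) (by linarith)
  rcases le_or_gt (s - g) (2 / 5) with h6 | h6
  · have k1 := softW hc0 hc L G1 g s A B 0 (1 / 10) ha hs0.le le_rfl hA0 hB0 le_rfl (by norm_num)
      (by
        have := chord_sum_le (s := s - g) (σ := 0) le_rfl (by linarith) h6
        rw [Real.sin_zero, Real.cos_zero] at this
        linarith [kp_le hc0 hc])
    have k2 := ih y s d s b l' k' le_rfl hb (by linarith) (by linarith) G2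
    have k3 := qP_le (c := c) (ν := s) (ν' := s) hc0 hc G1.norm
    rw [sub_self] at k3
    unfold fS at k1
    linarith
  · have k1 := soft_plain hc0 hc hA0 hA1 hB0 hB1 (by rw [h4, norm_pt (by linarith)]; exact hq1)
      hs0 G1.toG ha le_rfl
    have k2 := K_plain hc0 hc (g := s) (d := d) G2.toG le_rfl hb (by linarith) (by linarith)
    have k3 := tan_m (x := (s - g) / 2) (by linarith) (by linarith)
    refine of_plain hc0 hc L G1 G2 ?_ ?_
    · linarith [phi_cc_le_one hc0 hc]
    · linarith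

/-- short intervals -/
theorem caseB (hc0 : 0 < c) (hc : c < π / 2) (L : LipW c) (ha : a ≤ g)
    (hb : d ≤ b) (h1 : π / 2 - c ≤ d - g) (h2 : d - g ≤ π) (hz : d - g - π / 2 + c < s - g)
    (h3 : d - g - π / 2 + c ≤ π / 3) (hsd : s < d) (G1 : Wd c n y a s l k)
    (G2 : Wd c n y s b l' k') :
    d - g - π / 2 + c + phi c c - dt (pt 1 (g + π / 2)) y ≤ k + k' := by
  have hpi := Real.pi_pos
  have hpi' := Real.pi_lt_d2
  obtain ⟨ζ, hζ⟩ : ∃ ζ, ζ = d - g - π / 2 + c := ⟨_, rfl⟩
  rw [← hζ] at hz h3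
  have hζ0 : 0 ≤ ζ := by linarith
  have hd : d + c = g + ζ + π / 2 := by rw [hζ]; ring
  have h7' : dt (pt 1 (d + c)) y = dt (pt 1 (g + ζ + π / 2)) y := by rw [hd]
  rcases eq_or_lt_of_le hζ0 with h0 | h0
  · -- one hard terminal
    have k2 := hardW hc0 hc L G2 d hsd.le hb
    have k3 := qP_le (c := c) (ν := d + c - π / 2) (ν' := g) hc0 hc G1.norm
    have e1 : d + c - π / 2 = g := by rw [hd, ← h0]; ring
    rw [e1] at k2 k3
    rw [sub_self] at k3
    have k4 := softW hc0 hc L G1 g g 0 0 (1 / 10) 0 ha le_rfl (by linarith) le_rfl le_rfl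
      (by norm_num) le_rfl (by linarith [kp_le hc0 hc])
    unfold fS at k4
    linarith
  have hcs : Real.cos (ζ / 2) ≠ 0 :=
    (Real.cos_pos_of_mem_Ioo ⟨by linarith, by linarith⟩).ne'
  have hq1 := two_sin_le_one (x := ζ / 2) (by linarith) (by linarith)
  have hq0 : 0 ≤ Real.sin (ζ / 2) :=
    Real.sin_nonneg_of_nonneg_of_le_pi (by linarith) (by linarith)
  obtain ⟨A, B, hA0, hA1, hB0, hB1, hAB, hAB'⟩ := coef (κ := 2 * Real.sin (ζ / 2))
    (p := ζ / 2) (q := ζ / 2) (by linarith) (by linarith) (by linarith)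
    (by linarith) (by linarith) (by linarith) hq1
  have hv := chord_value (s := ζ) (σ := 0) hcs
  rw [sub_zero, add_zero, Real.sin_zero, Real.cos_zero] at hv
  rw [hv] at hAB
  have h4 := hAB' g (g + ζ) (g + ζ / 2) (by ring) (by ring)
  have h5 : pt (2 * Real.sin (ζ / 2)) (g + ζ / 2) + pt 1 (g + ζ + π / 2) =
      pt 1 (g + π / 2) := chord (by congr 2; ring) (by ring)
  have h7 : dt (pt 1 (g + π / 2)) y = A * dt (pt 1 g) y + B * dt (pt 1 (g + ζ)) y +
      dt (pt 1 (d + c)) y := by
    rw [← h5, dt_add_left, ← h4, dt_add_left, dt_pt_mul A, dt_pt_mul B, hd]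
  have h8 := half_le_tan (x := ζ) (by linarith) (by linarith)
  rcases le_or_gt ζ (2 / 5) with h6 | h6
  · have k1 := softW hc0 hc L G1 g (g + ζ) A B 0 (1 / 10) ha (by linarith) (by linarith) hA0 hB0
      le_rfl (by norm_num)
      (by
        have := chord_sum_le (s := ζ) (σ := 0) le_rfl (by linarith) h6
        rw [Real.sin_zero, Real.cos_zero] at this
        linarith [kp_le hc0 hc])
    have k2 := hardW hc0 hc L G2 d hsd.le hb
    have k3 := qP_le (c := c) (ν := d + c - π / 2) (ν' := g + ζ) hc0 hc G1.norm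
    have e1 : d + c - π / 2 - (g + ζ) = 0 := by rw [hd]; ring
    rw [e1, sub_add_cancel] at k3
    unfold fS at k1
    linarith
  · have k1 := soft_plain hc0 hc hA0 hA1 hB0 hB1 (by rw [h4, norm_pt (by linarith)]; exact hq1)
      (by linarith) G1.toG ha (by linarith)
    have k2 := hard_plain hc0 hc (d := d) G2.toG hsd hb
    have k3 := tan_m (x := ζ / 2) (by linarith) (by linarith)
    refine of_plain hc0 hc L G1 G2 ?_ ?_
    · linarith [phi_cc_le_one hc0 hc]
    · linarith

/-- split near the inexact end -/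
theorem caseC (hc0 : 0 < c) (hc : c < π / 2) (L : LipW c) (ih : KWP c n) (ha : a ≤ g)
    (hb : d ≤ b) (h2 : d - g ≤ π) (he : π - (d - g) ≤ π / 6)
    (hy : d - s ≤ π / 3 - (π - (d - g))) (hsd : s < d)
    (G1 : Wd c n y a s l k) (G2 : Wd c n y s b l' k') :
    d - g - π / 2 + c + phi c c - dt (pt 1 (g + π / 2)) y ≤ k + k' := by
  have hpi := Real.pi_pos
  have hpi' := Real.pi_lt_d2
  obtain ⟨e, hee⟩ : ∃ e, e = π - (d - g) := ⟨_, rfl⟩
  obtain ⟨x, hx⟩ : ∃ x, x = d - s := ⟨_, rfl⟩
  rw [← hee] at he hy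
  rw [← hx] at hy
  have he0 : 0 ≤ e := by linarith
  rcases le_or_gt e x with hex | hex
  · have hcx : Real.cos (x / 2) ≠ 0 :=
      (Real.cos_pos_of_mem_Ioo ⟨by linarith, by linarith⟩).ne'
    have hq0 : 0 ≤ Real.sin ((x + e) / 2) :=
      Real.sin_nonneg_of_nonneg_of_le_pi (by linarith) (by linarith)
    have hq1 := two_sin_le_one (x := (x + e) / 2) (by linarith) (by linarith)
    obtain ⟨A, B, hA0, hA1, hB0, hB1, hAB, hAB'⟩ := coef (κ := 2 * Real.sin ((x + e) / 2))
      (p := (x + e) / 2) (q := (x - e) / 2) (by linarith) (by linarith) (by linarith)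
      (by linarith) (by linarith) (by linarith) hq1
    have hv : 2 * Real.sin ((x + e) / 2) * (Real.cos (((x + e) / 2 - (x - e) / 2) / 2) /
        Real.cos (((x + e) / 2 + (x - e) / 2) / 2)) =
        Real.sin e + Real.tan (x / 2) * (1 + Real.cos e) := by
      rw [← chord_value hcx]
      have f1 : ((x + e) / 2 - (x - e) / 2) / 2 = -(((x - e) / 2 - (x + e) / 2) / 2) := by ring
      have f2 : ((x + e) / 2 + (x - e) / 2) / 2 = ((x - e) / 2 + (x + e) / 2) / 2 := by ring
      rw [f1, f2, Real.cos_neg]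
    rw [hv] at hAB
    have h4 := hAB' s d (s + (x + e) / 2) rfl (by rw [hx]; ring)
    have h5 : pt 1 (s - π / 2) + pt (2 * Real.sin ((x + e) / 2)) (s + (x + e) / 2) =
        pt 1 (g + π / 2) := by
      have h := chord' (α := g + π / 2) (ξ := e + x) (κ := 2 * Real.sin ((x + e) / 2))
        (θ := s + (x + e) / 2) (by congr 2; ring) (by rw [hee, hx]; ring)
      rw [← h]
      congr 2
      rw [hee, hx]; ring
    have h7 : dt (pt 1 (g + π / 2)) y = dt (pt 1 (s - π / 2)) y +
        (A * dt (pt 1 s) y + B * dt (pt 1 d) y) := by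
      rw [← h5, dt_add_left, ← h4, dt_add_left, dt_pt_mul A, dt_pt_mul B]
    -- the value
    have h8 := half_le_tan (x := x) (by linarith) (by linarith)
    have h9 := Real.cos_le_one e
    have h10 : 0.866 < Real.cos e := by
      have := W_8c5d11_h65.cos_lower (x := e) (by linarith) he
      exact this
    have h11 : 1 - Real.cos e ≤ Real.sin e := by
      have e1 := Real.sin_sq_add_cos_sq e
      have e2 : 0 ≤ Real.sin e := Real.sin_nonneg_of_nonneg_of_le_pi he0 (by linarith)
      nlinarith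
    have h12 : x / 2 ≤ 1 := by linarith
    rcases le_or_gt x (2 / 5) with h6 | h6
    · have k1 := ih.mirror (g := g) (d := s) ha le_rfl (by linarith) (by linarith) G1
      have k2 := softW hc0 hc L G2 s d A B (1 / 10) 0 le_rfl hsd.le hb hA0 hB0 (by norm_num)
        le_rfl (by linarith [chord_sum_le (s := x) (σ := e) he0 hex h6, kp_le hc0 hc])
      have k3 := qM_le (c := c) (ν := s) (ν' := s) hc0 hc G1.norm
      rw [sub_self] at k3
      unfold fS at k2
      have h13 : x ≤ A + B := by
        rw [hAB]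
        nlinarith [mul_nonneg (sub_nonneg.2 h8) (by linarith : (0 : ℝ) ≤ 1 + Real.cos e)]
      linarith
    · have k1 := K_plain' hc0 hc (g := g) (d := s) G1.toG ha le_rfl (by linarith) (by linarith)
      have k2 := soft_plain hc0 hc hA0 hA1 hB0 hB1 (by rw [h4, norm_pt (by linarith)]; exact hq1)
        hsd G2.toG le_rfl hb
      have k3 := tan_m (x := x / 2) (by linarith) (by linarith)
      have h13 : x + 1 / 250 ≤ A + B := by
        rw [hAB]
        nlinarith [mul_nonneg (sub_nonneg.2 k3) (by linarith : (0 : ℝ) ≤ 1 + Real.cos e)]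
      refine of_plain hc0 hc L G1 G2 ?_ ?_
      · linarith [phi_cc_le_one hc0 hc]
      · linarith
  · have hsin := Real.sin_le he0
    have hsin0 : 0 ≤ Real.sin e := Real.sin_nonneg_of_nonneg_of_le_pi he0 (by linarith)
    have h5 : pt 1 (d - e - π / 2) + pt (2 * Real.sin e) d = pt 1 (g + π / 2) := by
      have h := chord' (α := g + π / 2) (ξ := 2 * e) (κ := 2 * Real.sin e)
        (θ := d) (by congr 2; ring) (by rw [hee]; ring)
      rw [← h]
      congr 2
      rw [hee]; ring
    have h7 : dt (pt 1 (g + π / 2)) y = dt (pt 1 (d - e - π / 2)) y +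
        2 * Real.sin e * dt (pt 1 d) y := by
      rw [← h5, dt_add_left, dt_pt_mul (2 * Real.sin e)]
    have h8 := nB_T he0 he
    rcases le_or_gt e (2 / 5) with h6 | h6
    · have k1 := ih.mirror (g := g) (d := d - e) ha (by linarith) (by linarith) (by linarith) G1
      have k2 := softW hc0 hc L G2 d d (2 * Real.sin e) 0 (1 / 10) 0 hsd.le le_rfl hb
        (by linarith) le_rfl (by norm_num) le_rfl (by linarith [kp_le hc0 hc])
      have k3 := qM_le (c := c) (ν := d - e) (ν' := d) hc0 hc G1.norm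
      have e2 : d - e - d = -e := by ring
      rw [e2, neg_sq] at k3
      unfold fS at k2
      nlinarith
    · have k1 := K_plain' hc0 hc (g := g) (d := d - e) G1.toG ha (by linarith) (by linarith)
        (by linarith)
      have k2 := soft_plain1 hc0 hc (A := 2 * Real.sin e) (by linarith)
        (two_sin_le_one he he0) G2.toG hsd.le hb
      refine of_plain hc0 hc L G1 G2 ?_ ?_
      · linarith [phi_cc_le_one hc0 hc]
      · linarith

/-- **The bound for intervals with an exact near end.** -/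
theorem KW (hc0 : 0 < c) (hc : c < π / 2) (L : LipW c) (M : MidM c) (n : ℕ) : KWP c n := by
  have hpi := Real.pi_pos
  induction n with
  | zero =>
    intro y g d a b l k ha hb h1 h2 G
    have h3 := K_plain hc0 hc G.toG ha hb h1 h2
    have h4 := qP_ge (ν := g) hc0 hc G.norm
    cases G with
    | leaf _ _ _ => linarith
  | succ n ih =>
    intro y g d a b l k ha hb h1 h2 G
    cases G with
    | mono G => exact ih y g d a b l k ha hb h1 h2 G
    | @ext _ _ z _ _ l' k' hy G =>
      have k1 := ih z g d a b l' k' ha hb h1 h2 G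
      have k2 := (abs_le.1 (L.P 1 g y z zero_le_one le_rfl hy G.norm)).1
      linarith
    | @split _ _ _ s _ l k l' k' h3 h4 G1 G2 =>
      have p1 := (G1.nonneg hc0 hc L).2
      have p2 := (G2.nonneg hc0 hc L).2
      by_cases hs1 : s ≤ g
      · have k1 := ih y g d s b l' k' hs1 hb h1 h2 G2
        linarith
      have hs1' := not_le.1 hs1
      by_cases hs2 : d ≤ s
      · have k1 := ih y g d a s l k ha hs2 h1 h2 G1
        linarith
      have hs2' := not_le.1 hs2
      have hq := qP_ge (ν := g) hc0 hc G1.norm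
      rcases le_or_gt (s - g) (d - g - π / 2 + c) with hz | hz
      · rcases le_or_gt (s - g) (π / 3) with h5 | h5
        · linarith [caseA hc0 hc L ih ha hb h2 hs1' hz h5 G1 G2]
        by_cases h6 : π - (d - g) ≤ π / 6 ∧ d - s ≤ π / 3 - (π - (d - g))
        · linarith [caseC hc0 hc L ih ha hb h2 h6.1 h6.2 hs2' G1 G2]
        · have k1 := M n y (g + π / 2) a b l l' s 0 (π - (d - g)) le_rfl (by linarith)
            (by linarith) (by linarith) (Or.inl (by linarith)) (by linarith) (by linarith)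
            (fun _ => by linarith) (fun h => by
              by_contra hcon
              exact h6 ⟨h, by linarith [not_le.1 hcon]⟩) (by linarith) (by linarith) G1.toG G2.toG
          rw [min_eq_left (by linarith : (0 : ℝ) ≤ π - (d - g)), un_pt] at k1
          unfold Lam at k1
          have k2 := of_plain (V := d - g - π / 2 + c + phi c c) (θ := g + π / 2) hc0 hc L G1 G2
            (by linarith [phi_cc_le_one hc0 hc, Real.pi_lt_d2]) (by linarith)
          linarith
      · rcases le_or_gt (d - g - π / 2 + c) (π / 3) with h5 | h5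
        · linarith [caseB hc0 hc L ha hb h1 h2 hz h5 hs2' G1 G2]
        by_cases h6 : π - (d - g) ≤ π / 6 ∧ d - s ≤ π / 3 - (π - (d - g))
        · linarith [caseC hc0 hc L ih ha hb h2 h6.1 h6.2 hs2' G1 G2]
        · have k1 := M n y (g + π / 2) a b l l' s 0 (π - (d - g)) le_rfl (by linarith)
            (by linarith) (by linarith) (Or.inl (by linarith)) (by linarith) (by linarith)
            (fun _ => by linarith) (fun h => by
              by_contra hcon
              exact h6 ⟨h, by linarith [not_le.1 hcon]⟩) (by linarith) (by linarith) G1.toG G2.toG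
          rw [min_eq_left (by linarith : (0 : ℝ) ≤ π - (d - g)), un_pt] at k1
          unfold Lam at k1
          have k2 := of_plain (V := d - g - π / 2 + c + phi c c) (θ := g + π / 2) hc0 hc L G1 G2
            (by linarith [phi_cc_le_one hc0 hc, Real.pi_lt_d2]) (by linarith)
          linarith

end Pool.Agent.W_8c5d11_w65
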