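import Pool.Agent.W_8c5d11_f73.Top
import Pool.Agent.W_8c5d11_h65.UIneq

/-!
MP_8c5d11_gt: strictness for all `0 < r < R`. The inequalities of `W_8c5d11_f73` with a margin.
-/

set_option autoImplicit false

open Set
open scoped Real

namespace Pool.Agent.W_8c5d11_w65

open Pool.Agent.W_8c5d11_v22 Pool.Agent.W_8c5d11_f73
open Pool.Agent.W_8c5d11_g83 (sin_ge_cubic cos_le_quartic sin_le_quintic pi_bounds sqrt3_bd
  sqrt3_sq cos_ge_of_le)

theorem nS1m {c a τ : ℝ} (hc : c ≤ π / 4) (ha0 : 0 ≤ a) (ha : a ≤ π / 6) (h0 : 0 ≤ τ)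
    (h1 : τ ≤ π / 6) :
    NN c τ + 1 / 250 ≤ (Real.sin (π / 6 + τ) + Real.sin (π / 6 - a)) / Real.sin (π / 3 + τ - a) + a / 2 := by
  obtain ⟨p1, p2⟩ := pi_bounds
  have hN : NN c τ = 1.086 + (τ - Real.sin τ) + (1 - Real.cos τ) := by
    unfold NN; rw [if_pos hc]
  set k := (π / 6 - a) / 2 with hk
  set β := π / 12 + τ / 2 with hβ
  have hk0 : 0 ≤ k := by rw [hk]; linarith only [ha]
  have hk1 : k ≤ 0.2618 := by rw [hk]; linarith only [ha0, p2]
  have hβ0 : 0 ≤ β := by rw [hβ]; linarith only [h0, h1]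
  have hβ1 : β ≤ 0.5236 := by rw [hβ]; linarith
  have e1 : Real.sin (π / 6 + τ) + Real.sin (π / 6 - a) =
      2 * Real.sin (β + k) * Real.cos (β - k) := by
    rw [show π / 6 + τ = (β + k) + (β - k) by rw [hβ, hk]; ring,
      show π / 6 - a = (β + k) - (β - k) by rw [hk]; ring, Real.sin_add (β + k),
      Real.sin_sub (β + k)]
    ring
  have e2 : Real.sin (π / 3 + τ - a) = 2 * Real.sin (β + k) * Real.cos (β + k) := by
    rw [show π / 3 + τ - a = 2 * (β + k) by rw [hβ, hk]; ring, Real.sin_two_mul]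
  have hsin : 0 < Real.sin (π / 3 + τ - a) :=
    Real.sin_pos_of_pos_of_lt_pi (by linarith only [ha, h0, p1]) (by linarith only [ha0, h1, p1])
  have hs : 0 < Real.sin (β + k) :=
    Real.sin_pos_of_pos_of_lt_pi (by rw [hβ, hk]; linarith only [ha, h0, p1]) (by linarith only [p1, hk1, hβ1])
  have hcc : 0 < Real.cos (β + k) := Real.cos_pos_of_mem_Ioo ⟨by linarith only [p1, hk0, hβ0], by linarith only [p1, hk1, hβ1]⟩
  have e3 : 1 + 2 * k * β ≤
      (Real.sin (π / 6 + τ) + Real.sin (π / 6 - a)) / Real.sin (π / 3 + τ - a) := by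
    rw [le_div_iff₀ hsin, e1, e2]
    have h2 : (1 + 2 * k * β) * Real.cos (β + k) ≤ Real.cos (β - k) := by
      have cb : 0 < Real.cos β := Real.cos_pos_of_mem_Ioo ⟨by linarith only [h0, p1, hβ], by linarith only [h1, p1, hβ]⟩
      have ck : 0 < Real.cos k := Real.cos_pos_of_mem_Ioo ⟨by linarith only [ha, p1, hk], by linarith only [ha0, p1, hk]⟩
      have sb : 0 ≤ Real.sin β := Real.sin_nonneg_of_nonneg_of_le_pi hβ0 (by linarith only [h1, p1, hβ])
      have sk : 0 ≤ Real.sin k := Real.sin_nonneg_of_nonneg_of_le_pi hk0 (by linarith only [ha0, ha, hk])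
      -- `sin k ≥ k cos k`, `sin β ≥ β cos β`
      have f1 := Pool.Agent.W_8c5d11_g83.sin_sub_mul_cos_nonneg hk0 (by linarith only [hk1])
      have f2 := Pool.Agent.W_8c5d11_g83.sin_sub_mul_cos_nonneg hβ0 hβ1
      have f3 : (k * Real.cos k) * (β * Real.cos β) ≤ Real.sin k * Real.sin β :=
        mul_le_mul (by linarith only [f1]) (by linarith only [f2]) (mul_nonneg hβ0 cb.le) sk
      have f4 : 0 ≤ k * β * (Real.sin β * Real.sin k) :=
        mul_nonneg (mul_nonneg hk0 hβ0) (mul_nonneg sb sk)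
      rw [Real.cos_add, Real.cos_sub]
      linarith only [f3, f4]
    nlinarith only [hs, h2]
  have e4 : τ - Real.sin τ ≤ τ ^ 3 / 6 := sub_sin_le h0
  have e5 := one_sub_cos_le τ
  have e6 : a / 2 = π / 12 - k := by rw [hk]; ring
  rw [hN, e6]
  have hτ : τ ≤ 0.5236 := by linarith only [h1, p2]
  -- linear in `k`
  have e7 : 1.086 + τ ^ 3 / 6 + τ ^ 2 / 2 ≤ 1.2577 := by
    have : τ ^ 2 ≤ 0.5236 ^ 2 := pow_le_pow_left₀ h0 hτ 2
    have : τ ^ 3 ≤ 0.5236 ^ 3 := pow_le_pow_left₀ h0 hτ 3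
    norm_num at *
    linarith
  have e8 : 1.086 + τ ^ 3 / 6 + τ ^ 2 / 2 ≤ 1.133 + 0.2617 * τ := by
    have g1 : 0 ≤ τ * (0.5236 - τ) := mul_nonneg h0 (by linarith only [hτ])
    have g2 : 0 ≤ τ ^ 2 * (0.5236 - τ) := mul_nonneg (by positivity) (by linarith only [hτ])
    linarith only [e7, g1, g2]
  have e9 : 1.086 + τ ^ 3 / 6 + τ ^ 2 / 2 ≤ 1 + 2 * k * β + (π / 12 - k) - 1 / 250 := by
    rcases le_total (1 / 2) β with h | h
    · have : 0 ≤ k * (2 * β - 1) := mul_nonneg hk0 (by linarith only [h])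
      linarith only [p1, e7, this]
    · have g1 : (π / 12 - k) * (2 * β - 1) ≤ 0 := by
        apply mul_nonpos_of_nonneg_of_nonpos
        · rw [hk]; linarith only [ha0]
        · linarith only [h]
      have g2 : 1.137 + 0.2617 * τ ≤ 1 + π / 12 * (2 * β) := by
        rw [hβ]; nlinarith only [h0, p1]
      linarith only [e8, g1, g2]
  linarith only [e3, e4, e5, e9]

theorem nS2m {c a τ : ℝ} (hc0 : π / 4 ≤ c) (hc : c < π / 2) (ha0 : 0 ≤ a) (ha : a ≤ π / 6)
    (h0 : 0 ≤ τ) (h1 : τ ≤ π / 6) (hc1 : ¬ c ≤ π / 4) :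
    NN c τ + 1 / 250 ≤ phi c (π / 6 + a) + phi c (π / 6 - τ) + a / 2 := by
  obtain ⟨p1, p2⟩ := pi_bounds
  obtain ⟨q1, q2⟩ := sqrt3_bd
  obtain ⟨r1, r2⟩ := sqrt2_bd
  have hN : NN c τ ≤ 1.278 := by
    have := sub_sin_num h0 h1
    rcases NN_cases c τ with ⟨h, hN⟩ | ⟨h, h', hN⟩ | ⟨h, hN⟩
    · exact absurd h hc1
    · rw [hN]; linarith only [this]
    · rw [hN]; linarith only [this]
  have hs : Real.sqrt 2 / 2 ≤ Real.sin c := by
    rw [← Real.sin_pi_div_four]
    exact Real.sin_le_sin_of_le_of_le_pi_div_two (by linarith only [p1]) hc.le hc0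
  have hs0 : 0 < Real.sin c := by linarith only [r1, hs]
  have h2 : (1 - Real.cos (π / 6 - τ)) / Real.sin c ≤ 0.19 := by
    rw [div_le_iff₀ hs0]
    have := e_le (t := π / 6 - τ) (by linarith only [h1]) (by linarith only [h0])
    linarith only [r1, hs, this]
  have h3 : (1 - Real.cos (π / 6 + a)) / Real.sin c ≤ 0.19 + a * 1.1 := by
    rw [div_le_iff₀ hs0]
    have b1 : (0.19 + a * 1.1) * 0.7071 ≤ (0.19 + a * 1.1) * Real.sin c :=
      mul_le_mul_of_nonneg_left (by linarith only [r1, hs]) (by linarith only [ha0])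
    have b2 : 1 - Real.cos (π / 6 + a) ≤ 0.134 + 0.73 * a := by
      rw [Real.cos_add, Real.cos_pi_div_six, Real.sin_pi_div_six]
      have c1 := Real.one_sub_sq_div_two_le_cos (x := a)
      have c2 := Real.sin_le ha0
      have c3 : Real.sqrt 3 / 2 * (1 - a ^ 2 / 2) ≤ Real.sqrt 3 / 2 * Real.cos a :=
        mul_le_mul_of_nonneg_left c1 (by linarith only [q1])
      have c4 : Real.sqrt 3 / 2 * (a ^ 2 / 2) ≤ 0.8661 * (a ^ 2 / 2) :=
        mul_le_mul_of_nonneg_right (by linarith only [q2]) (by positivity)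
      have c5 : a ^ 2 ≤ 0.5236 * a := by nlinarith only [ha0, ha, p2]
      linarith only [ha0, q1, c2, c3, c4, c5]
    linarith only [ha0, b1, b2]
  unfold phi
  linarith

theorem nS3m {c a : ℝ} (hc0 : 0 < c) (hc : c < π / 2) (ha0 : π / 6 ≤ a) (ha : a ≤ π / 6 + c) :
    NN c 0 + π / 12 + 1 / 250 ≤ phi c (a - π / 6) + a := by
  obtain ⟨p1, p2⟩ := pi_bounds
  have h := phi_add_ge hc0 hc (by linarith only [ha0] : 0 ≤ a - π / 6) (by linarith only [ha])
  have hN : NN c 0 ≤ 1.23 := by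
    rcases NN_cases c 0 with ⟨h, hN⟩ | ⟨h, h', hN⟩ | ⟨h, hN⟩ <;> rw [hN] <;>
      simp only [Real.sin_zero, Real.cos_zero] <;> norm_num
  linarith only [p1, h, hN]

theorem nS4m {c a τ : ℝ} (hc0 : 0 < c) (hc : c ≤ π / 3) (ha0 : π / 6 ≤ a) (ha : a ≤ π / 6 + c)
    (h0 : 0 ≤ τ) (h1 : τ ≤ π / 6) :
    NN c τ + π / 12 + 1 / 250 ≤ phi c (a - π / 6) + a := by
  obtain ⟨p1, p2⟩ := pi_bounds
  have h := phi_add_ge hc0 (by linarith only [hc0, hc]) (by linarith only [ha0] : 0 ≤ a - π / 6) (by linarith only [ha])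
  have e1 := sub_sin_num h0 h1
  have e2 := e_le h0 h1
  have hN : NN c τ ≤ 1.245 := by
    rcases NN_cases c τ with ⟨h, hN⟩ | ⟨h, h', hN⟩ | ⟨h, hN⟩
    · rw [hN]; linarith only [e1, e2]
    · rw [hN]; linarith
    · linarith only [hc, h]
  linarith only [p1, h, hN]

theorem nS5m {c a τ : ℝ} (hc0 : π / 3 ≤ c) (hc : c < π / 2) (ha0 : π / 6 ≤ a) (ha : a ≤ π / 6 + c)
    (h0 : 0 ≤ τ) (h1 : τ ≤ π / 6) :
    NN c τ + π / 12 + 1 / 250 ≤ phi c (π / 6 + a) + phi c (π / 6 - τ) + a := by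
  obtain ⟨p1, p2⟩ := pi_bounds
  obtain ⟨q1, q2⟩ := sqrt3_bd
  have e1 := sub_sin_num h0 h1
  have hN : NN c τ ≤ 1.278 := by
    rcases NN_cases c τ with ⟨h, hN⟩ | ⟨h, h', hN⟩ | ⟨h, hN⟩
    · linarith only [hc0, hc, h]
    · rw [hN]; linarith only [e1]
    · rw [hN]; linarith only [e1]
  have hs : Real.sqrt 3 / 2 ≤ Real.sin c := by
    rw [← Real.sin_pi_div_three]
    exact Real.sin_le_sin_of_le_of_le_pi_div_two (by linarith only [p1]) hc.le hc0
  have hs0 : 0 < Real.sin c := by linarith only [q1, hs]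
  have h2 : (1 - Real.cos (π / 6 - τ)) / Real.sin c ≤ 0.155 := by
    rw [div_le_iff₀ hs0]
    have := e_le (t := π / 6 - τ) (by linarith only [h1]) (by linarith only [h0])
    linarith only [q1, hs, this]
  -- the other one
  have h3 : (1 - Real.cos (π / 6 + a)) / Real.sin c ≤ a + 0.30 := by
    rw [div_le_iff₀ hs0]
    have b1 : (a + 0.30) * 0.866 ≤ (a + 0.30) * Real.sin c :=
      mul_le_mul_of_nonneg_left (by linarith only [q1, hs]) (by linarith)
    refine le_trans ?_ b1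
    set ψ := π / 6 + a with hψ
    have hψ0 : 1.047 ≤ ψ := by rw [hψ]; linarith only [ha0, p1]
    have haψ : a = ψ - π / 6 := by rw [hψ]; ring
    rcases le_total ψ (π / 2) with h | h
    · have c1 : 1 - 2 / π * ψ ≤ Real.cos ψ :=
        Real.one_sub_mul_le_cos (by linarith only [hψ0]) h
      have c2 : 2 / π * ψ ≤ 0.6367 * ψ := by
        apply mul_le_mul_of_nonneg_right _ (by linarith only [hψ0])
        rw [div_le_iff₀ (by linarith only [hψ0, h])]; linarith only [p1]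
      rw [haψ]
      linarith only [p2, hψ0, c1, c2]
    · have c1 : -(ψ - π / 2) ≤ Real.cos ψ := by
        have : Real.cos ψ = -Real.sin (ψ - π / 2) := by
          rw [Real.sin_sub_pi_div_two]; ring
        rw [this]
        have := Real.sin_le (x := ψ - π / 2) (by linarith only [h])
        linarith only [this]
      have hψ1 : ψ ≤ 2.6181 := by rw [hψ]; linarith only [hc, ha, p2]
      rw [haψ]
      linarith only [p1, c1, hψ1]
  unfold phi
  linarith only [p2, hN, h2, h3]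

theorem n3Gm {h θ : ℝ} (h0 : 0 ≤ h) (h1 : h ≤ π / 3) (hθ0 : 0 ≤ θ) (hθ1 : h - π / 6 ≤ θ)
    (hθ : θ ≤ h / 2) :
    π / 3 + h / 2 + 1 / 250 ≤
      (Real.sin (π / 6 + θ) + Real.sin (π / 6 + h - θ)) / Real.sin (π / 3 + h) := by
  obtain ⟨p1, p2⟩ := pi_bounds
  obtain ⟨q1, q2⟩ := sqrt3_bd
  have hq := sqrt3_sq
  set v := h / 2 with hv
  have hv0 : 0 ≤ v := by rw [hv]; linarith only [h0]
  have hv1 : v ≤ π / 6 := by rw [hv]; linarith only [h1]
  set u := v - θ with hu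
  have hu0 : 0 ≤ u := by rw [hu]; linarith only [hθ]
  have e1 : Real.sin (π / 6 + θ) + Real.sin (π / 6 + h - θ) =
      2 * Real.sin (π / 6 + v) * Real.cos u := by
    rw [show π / 6 + h - θ = (π / 6 + v) + u by rw [hu, hv]; ring,
      show π / 6 + θ = (π / 6 + v) - u by rw [hu]; ring, Real.sin_add (π / 6 + v),
      Real.sin_sub (π / 6 + v)]
    ring
  have e2 : Real.sin (π / 3 + h) = 2 * Real.sin (π / 6 + v) * Real.cos (π / 6 + v) := by
    rw [show π / 3 + h = 2 * (π / 6 + v) by rw [hv]; ring, Real.sin_two_mul]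
  have hsin : 0 < Real.sin (π / 3 + h) :=
    Real.sin_pos_of_pos_of_lt_pi (by linarith only [h0, p1]) (by linarith only [h1, p1])
  have hs : 0 < Real.sin (π / 6 + v) :=
    Real.sin_pos_of_pos_of_lt_pi (by linarith only [p1, hv0]) (by linarith only [hθ1, p1, hv, hu0])
  rw [le_div_iff₀ hsin, e1, e2]
  have cv : 0 < Real.cos v := Real.cos_pos_of_mem_Ioo ⟨by linarith only [hθ0, p1, hθ], by linarith only [hθ1, p1, hv, hu0]⟩
  have sv : 0 ≤ Real.sin v := Real.sin_nonneg_of_nonneg_of_le_pi hv0 (by linarith only [hv0, hv1])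
  have f1 := Pool.Agent.W_8c5d11_g83.sin_sub_mul_cos_nonneg hv0 (by linarith only [hθ1, p2, hθ, hv])
  have key : (π / 3 + v + 1 / 250) * Real.cos (π / 6 + v) ≤ Real.cos u := by
    rcases le_total v (π / 12) with h2 | h2
    · have g1 : Real.cos v ≤ Real.cos u :=
        Real.cos_le_cos_of_nonneg_of_le_pi hu0 (by linarith only [hθ1, hθ, hv, hv0]) (by rw [hu]; linarith only [hθ0])
      refine le_trans ?_ g1
      rw [Real.cos_add, Real.cos_pi_div_six, Real.sin_pi_div_six]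
      -- `(π/3+v)(√3 cos v - sin v) ≤ 2 cos v`
      have g2 : Real.sqrt 3 / 2 * Real.cos v - 1 / 2 * Real.sin v ≤
          (0.866026 - v / 2) * Real.cos v := by nlinarith only [q2, cv, f1]
      have g3 : (π / 3 + v + 1 / 250) * (Real.sqrt 3 / 2 * Real.cos v - 1 / 2 * Real.sin v) ≤
          (π / 3 + v + 1 / 250) * ((0.866026 - v / 2) * Real.cos v) :=
        mul_le_mul_of_nonneg_left g2 (by linarith only [hv0, hv1])
      have g4 : (π / 3 + v + 1 / 250) * (0.866026 - v / 2) ≤ 1 := by nlinarith only [p2, hv0, hv1]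
      have g5 := mul_le_mul_of_nonneg_right g4 cv.le
      linarith only [g3, g5]
    · have g0 : u ≤ π / 6 - v := by rw [hu]; rw [hv] at *; linarith only [hθ1]
      have g1 : Real.cos (π / 6 - v) ≤ Real.cos u :=
        Real.cos_le_cos_of_nonneg_of_le_pi hu0 (by linarith only [hu0, h2, g0]) g0
      refine le_trans ?_ g1
      rw [Real.cos_add, Real.cos_sub, Real.cos_pi_div_six, Real.sin_pi_div_six]
      -- `(π/3+v)(√3 cos v - sin v) ≤ √3 cos v + sin v`
      have g2 : Real.sqrt 3 / 2 * Real.cos v - 1 / 2 * Real.sin v ≤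
          (0.866026 - v / 2) * Real.cos v := by nlinarith only [q2, cv, f1]
      have g3 : (π / 3 + v + 1 / 250) * (Real.sqrt 3 / 2 * Real.cos v - 1 / 2 * Real.sin v) ≤
          (π / 3 + v + 1 / 250) * ((0.866026 - v / 2) * Real.cos v) :=
        mul_le_mul_of_nonneg_left g2 (by linarith only [hu0, h2, g0])
      have g4 : (π / 3 + v + 1 / 250) * (0.866026 - v / 2) ≤ 0.866 + v / 2 := by nlinarith only [p1, p2, h2]
      have g5 := mul_le_mul_of_nonneg_right g4 cv.le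
      nlinarith only [p1, q1, q2, sv, h2, g2, g3, g4]
  nlinarith only [hs, key]

theorem small_cert_m {c a τ μ : ℝ} (hc0 : 0 < c) (hc : c < π / 2) (ha0 : 0 ≤ a)
    (ha : a ≤ π / 6 + c) (h0 : 0 ≤ τ) (h1 : τ ≤ π / 6) (h4 : 0 < π / 6 - a + (π / 6 + τ))
    (hμa : μ ≤ a) (hμ : μ ≤ π / 6) :
    ∃ v, Cert c (π / 6 - a) (π / 6 + τ) v ∧ NN c τ + μ / 2 + 1 / 250 ≤ v + a := by
  have hpi := Real.pi_pos
  by_cases hA : a ≤ π / 6
  · by_cases hC : c ≤ π / 4
    · have e1 : Real.sin (π / 6 + τ) ≤ Real.sin (π / 6 - a + (π / 6 + τ)) :=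
        Real.sin_le_sin_of_le_of_le_pi_div_two (by linarith only [h0, h1]) (by linarith only [ha0, h1]) (by linarith only [hA])
      have e2 : Real.sin (π / 6 - a) ≤ Real.sin (π / 6 - a + (π / 6 + τ)) :=
        Real.sin_le_sin_of_le_of_le_pi_div_two (by linarith only [hpi, hA]) (by linarith only [ha0, h1]) (by linarith only [h0, h1])
      refine ⟨_, certP (χ := π / 6 - a) (ρ := π / 6 + τ) hc0 hc (by linarith only [hA]) (by linarith only [h0, h1]) h4
        (by linarith only [ha0, h1, h4]) h4 e1 e2, ?_⟩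
      have h5 := nS1m hC ha0 hA h0 h1
      rw [sub_self, sub_self, phi_zero, one_mul, one_mul, ← add_div,
        show π / 6 - a + (π / 6 + τ) = π / 3 + τ - a by ring]
      linarith only [hμa, h5]
    · refine ⟨_, cert_eq hc0 hc h4, ?_⟩
      have h5 := nS2m (not_le.1 hC).le hc ha0 hA h0 h1 hC
      linarith only [hμa, h5]
  · have hA' : π / 6 ≤ a := (not_le.1 hA).le
    by_cases hC : c ≤ π / 3
    · refine ⟨_, certS hc0 hc h4, ?_⟩
      have h5 := nS4m hc0 hC hA' ha h0 h1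
      rw [← phi_neg, neg_sub]
      linarith only [hμ, h5]
    · refine ⟨_, cert_eq hc0 hc h4, ?_⟩
      have h5 := nS5m (not_le.1 hC).le hc hA' ha h0 h1
      linarith only [hμ, h5]

theorem mid_aux_m {c a t r₁ r₂ : ℝ} (hc0 : 0 < c) (hc : c < π / 2) (ha0 : 0 ≤ a)
    (ha : a ≤ π / 6 + c) (ht0 : 0 ≤ t) (ht : t ≤ π / 6 + c) (hr : r₁ + r₂ = 2 * π / 3)
    (h1 : 0 < π / 6 - a + r₁) (h2 : 0 < π / 6 - t + r₂) (ha' : a ≤ π / 6 → π / 6 ≤ r₁)
    (hm : a ≤ π / 6 ∨ t ≤ π / 6) (hle : r₁ ≤ r₂) :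
    ∃ v₁ v₂, Cert c (π / 6 - a) r₁ v₁ ∧ Cert c (π / 6 - t) r₂ v₂ ∧
      Lam c - a - t + min a t / 2 + 1 / 250 ≤ v₁ + v₂ := by
  have hpi := Real.pi_pos
  have hmin1 : min a t ≤ a := min_le_left _ _
  have hmin2 : min a t ≤ π / 6 := by
    rcases hm with h | h
    · exact hmin1.trans h
    · exact (min_le_right _ _).trans h
  by_cases hr1 : π / 6 ≤ r₁
  · -- `τ = r₁ - π/6`
    obtain ⟨v₁, c1, e1⟩ := small_cert_m (τ := r₁ - π / 6) hc0 hc ha0 ha (by linarith only [hr1]) (by linarith only [hr, hle])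
      (by linarith only [h1]) hmin1 hmin2
    obtain ⟨v₂, c2, e2⟩ := large_cert (a := t) (τ := r₁ - π / 6) hc0 hc ht0 ht (by linarith only [hr1])
      (by linarith only [hr, hle]) (by linarith only [hr, h2])
    refine ⟨v₁, v₂, ?_, ?_, by linarith only [e1, e2]⟩
    · rwa [show π / 6 + (r₁ - π / 6) = r₁ by ring] at c1
    · rwa [show π / 2 - (r₁ - π / 6) = r₂ by linarith only [hr]] at c2
  · have hA : ¬ a ≤ π / 6 := fun h => hr1 (ha' h)
    have hA' : π / 6 ≤ a := (not_le.1 hA).le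
    obtain ⟨v₂, c2, e2⟩ := large_cert (a := t) (τ := 0) hc0 hc ht0 ht le_rfl (by linarith only [hpi])
      (by linarith only [hc, ht])
    refine ⟨_, v₂, certS hc0 hc h1, c2.mono (by linarith only [hr, not_le.1 hr1]), ?_⟩
    have h5 := nS3m hc0 hc hA' ha
    rw [← phi_neg, neg_sub]
    linarith only [hmin2, e2, h5]

theorem mid_m {c a t r₁ r₂ : ℝ} (hc0 : 0 < c) (hc : c < π / 2) (ha0 : 0 ≤ a)
    (ha : a ≤ π / 6 + c) (ht0 : 0 ≤ t) (ht : t ≤ π / 6 + c) (hr : r₁ + r₂ = 2 * π / 3)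
    (h1 : 0 < π / 6 - a + r₁) (h2 : 0 < π / 6 - t + r₂) (ha' : a ≤ π / 6 → π / 6 ≤ r₁)
    (ht' : t ≤ π / 6 → π / 6 ≤ r₂) (hm : a ≤ π / 6 ∨ t ≤ π / 6) :
    ∃ v₁ v₂, Cert c (π / 6 - a) r₁ v₁ ∧ Cert c (π / 6 - t) r₂ v₂ ∧
      Lam c - a - t + min a t / 2 + 1 / 250 ≤ v₁ + v₂ := by
  rcases le_total r₁ r₂ with h | h
  · exact mid_aux_m hc0 hc ha0 ha ht0 ht hr h1 h2 ha' hm h
  · obtain ⟨v₂, v₁, c2, c1, e⟩ := mid_aux_m hc0 hc ht0 ht ha0 ha (by linarith only [hr]) h2 h1 ht' hm.symm h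
    refine ⟨v₁, v₂, c1, c2, ?_⟩
    rw [min_comm] at e
    linarith only [e]

theorem mid_split_m {c : ℝ} (hc0 : 0 < c) (hc : c < π / 2) {n : ℕ} {y : ℂ}
    {θ a b l m s A T : ℝ} (hA0 : 0 ≤ A) (hA : A ≤ π / 6 + c) (hT0 : 0 ≤ T) (hT : T ≤ π / 6 + c)
    (hm : A ≤ π / 6 ∨ T ≤ π / 6) (h1 : θ - π / 2 + A < s) (h2 : s < θ + π / 2 - T)
    (h3 : A ≤ π / 6 → π / 3 - A ≤ s - (θ - π / 2 + A))
    (h4 : T ≤ π / 6 → π / 3 - T ≤ θ + π / 2 - T - s) (ha : a ≤ θ - π / 2 + A)
    (hb : θ + π / 2 - T ≤ b) (G1 : GG c n y a s l) (G2 : GG c n y s b m) :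
    Lam c - A - T + min A T / 2 + 1 / 250 ≤ l + m + dt (un θ) y := by
  obtain ⟨v₁, v₂, c1, c2, e⟩ := mid_m (r₁ := s - θ + π / 3) (r₂ := θ + π / 3 - s) hc0 hc hA0 hA hT0
    hT (by ring) (by linarith) (by linarith only [h2]) (fun h => by linarith only [h3 h])
    (fun h => by linarith only [h4 h]) hm
  have k1 := c1 n y (θ - π / 3) a s l (by linarith only [ha]) (by linarith only []) G1
  have k2 := c2.mirror (θ := θ + π / 3) (by linarith only []) (by linarith) G2
  have e4 := dt_add (un (θ - π / 3)) (un (θ + π / 3)) y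
  rw [un_third] at e4
  linarith only [e, k1, k2, e4]

/-- two soft terminals instead of the arc -/
theorem two_soft {c : ℝ} (hc0 : 0 < c) (hc : c < π / 2) {n : ℕ} {y : ℂ} {a b l : ℝ}
    (h1 : 2 / 5 ≤ b - a) (h2 : b - a ≤ π / 3) (h : GG c n y a b l) :
    b - a + 1 / 250 ≤ l + dt (un (b - π / 2) - un (a - π / 2)) y := by
  have hpi := Real.pi_pos
  obtain ⟨k, hk⟩ : ∃ k, k = (b - a) / 2 := ⟨_, rfl⟩
  have hk0 : 0 < k := by linarith only [h1, hk]
  have hk1 : k ≤ π / 6 := by linarith only [h2, hk]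
  have hs : 0 < Real.sin k := Real.sin_pos_of_pos_of_lt_pi hk0 (by linarith only [hk0, hk1])
  have hco : 0 < Real.cos k := Real.cos_pos_of_mem_Ioo ⟨by linarith only [hpi, hk0], by linarith only [hk0, hk1]⟩
  have hs1 : Real.sin k ≤ 1 / 2 := by
    rw [← Real.sin_pi_div_six]
    exact Real.sin_le_sin_of_le_of_le_pi_div_two (by linarith only [hk0, hk1]) (by linarith) hk1
  have e0 : Real.sin (k + k) = 2 * Real.sin k * Real.cos k := by rw [← two_mul, Real.sin_two_mul]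
  have hcos : 1 / 2 ≤ Real.cos k := by
    rw [← Real.cos_pi_div_three]
    exact Real.cos_le_cos_of_nonneg_of_le_pi hk0.le (by linarith only [hk0, hk1]) (by linarith only [hk0, hk1])
  have hle : Real.sin k ≤ Real.sin (k + k) := by rw [e0]; nlinarith only [hs, hcos]
  have k1 := certP (q := k) (r := k) (χ := k) (ρ := k) hc0 hc hk0.le hk0.le (by linarith only [hk0])
    (by linarith only [h2, hk, hk0]) (by linarith only [hk0]) hle hle n y ((a + b) / 2) a b l (by linarith only [hk]) (by linarith only [hk]) h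
  rw [sub_self, phi_zero, one_mul, e0] at k1
  have e1 : Real.sin k / (2 * Real.sin k * Real.cos k) + Real.sin k / (2 * Real.sin k * Real.cos k) =
      1 / Real.cos k := by field_simp; norm_num
  rw [e1] at k1
  have e2 := un_sub (a - π / 2) (b - π / 2)
  rw [show (b - π / 2 - (a - π / 2)) / 2 = k by rw [hk]; ring,
    show (a - π / 2 + (b - π / 2)) / 2 + π / 2 = (a + b) / 2 by ring] at e2
  rw [e2, dt_smul]
  have p := h.nonneg
  have k2 := mul_le_mul_of_nonneg_left k1 (by linarith only [hs] : 0 ≤ 2 * Real.sin k)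
  have k3 : 2 * Real.sin k * l ≤ l := by nlinarith only [hs1, p]
  have k4 : 2 * Real.sin k * (1 / Real.cos k) = 2 * Real.tan k := by
    rw [Real.tan_eq_sin_div_cos]; ring
  have k5 := Pool.Agent.W_8c5d11_h65.tan_m (x := k) (by linarith only [h1, hk]) hk1
  rw [k4] at k2
  linarith only [hk, k2, k3, k5]

theorem top_small_m {c : ℝ} (hc0 : 0 < c) (hc : c < π / 2) {n : ℕ} {y : ℂ} {a b d l₁ l₂ l₃ : ℝ}
    (G1 : GG c n y a b l₁) (G2 : GG c n y b d l₂) (G3 : GG c n y d (a + 2 * π) l₃)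
    (h0 : 2 / 5 ≤ b - a) (h1 : b - a ≤ π / 3) (h2 : d - b ≤ π) (h3 : a + 2 * π - d ≤ π) :
    2 * Lam c + 1 / 250 ≤ l₁ + l₂ + l₃ := by
  have hpi := Real.pi_pos
  have k1 := two_soft hc0 hc h0 h1 G1
  have k2 := (K_all hc0 hc n).mirror (θ := b + π / 2) (A := π - (d - b)) (by linarith only [h2])
    (by linarith) (by linarith only []) (by linarith only []) G2
  have k3 := K_all hc0 hc n y (a - π / 2 + 2 * π) d (a + 2 * π) l₃ (π - (a + 2 * π - d))
    (by linarith only [h3]) (by linarith only [hc0, h1, h2, h3]) (by linarith only []) (by linarith only []) G3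
  rw [un_shift] at k3
  rw [un_opp] at k2
  have e1 : dt (un (b - π / 2) - un (a - π / 2)) y =
      dt (un (b - π / 2)) y - dt (un (a - π / 2)) y := by
    simp only [dt, Complex.sub_re, Complex.sub_im]; ring
  have e2 : dt (-un (b - π / 2)) y = -dt (un (b - π / 2)) y := by
    simp only [dt, Complex.neg_re, Complex.neg_im]; ring
  linarith

theorem top_big_m {c : ℝ} (hc0 : 0 < c) (hc : c < π / 2) {n : ℕ} {y : ℂ} {a b d l₁ l₂ l₃ : ℝ}
    (G1 : GG c n y a b l₁) (G2 : GG c n y b d l₂) (G3 : GG c n y d (a + 2 * π) l₃)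
    (h1 : π / 3 ≤ b - a) (h2 : b - a ≤ d - b) (h3 : d - b ≤ a + 2 * π - d)
    (h4 : a + 2 * π - d ≤ π) : 2 * Lam c + 1 / 250 ≤ l₁ + l₂ + l₃ := by
  have hpi := Real.pi_pos
  obtain ⟨h, hh⟩ : ∃ h, h = b - a - π / 3 := ⟨_, rfl⟩
  obtain ⟨x, hx⟩ : ∃ x, x = π - (a + 2 * π - d) := ⟨_, rfl⟩
  obtain ⟨θ, hθ⟩ : ∃ θ, θ = min x h / 2 := ⟨_, rfl⟩
  have hb : b = a + π / 3 + h := by linarith only [hh]
  have hd : d = a + π + x := by linarith only [hx]
  have b0 : 0 ≤ h := by linarith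
  have b1 : 0 ≤ x := by linarith
  have b2 : h ≤ π / 3 := by linarith
  have b3 : x ≤ π / 3 := by linarith only [h2, h3, hd]
  have m1 : min x h ≤ x := min_le_left _ _
  have m2 : min x h ≤ h := min_le_right _ _
  have t0 : 0 ≤ θ := by rw [hθ]; have := le_min b1 b0; linarith only [this]
  have t1 : θ ≤ h / 2 := by linarith only [hθ, m2]
  have t2 : θ ≤ x / 2 := by linarith only [hθ, m1]
  have t3 : h - π / 6 ≤ θ := by
    rcases min_choice x h with e | e
    · rw [hθ, e]; linarith only [h2, hh, hx]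
    · rw [hθ, e]; linarith only [b2]
  have t4 : h + x - 2 * θ ≤ π / 3 := by
    rcases min_choice x h with e | e
    · rw [hθ, e]; linarith only [t1, t3]
    · rw [hθ, e]; linarith only [b3]
  -- the first interval
  have s0 : Real.sin (π / 3) ≤ Real.sin (π / 3 + h) := by
    rcases le_total (π / 3 + h) (π / 2) with e | e
    · exact Real.sin_le_sin_of_le_of_le_pi_div_two (by linarith only [t0, t1, e]) e (by linarith only [t0, t1])
    · rw [← Real.sin_pi_sub (π / 3 + h)]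
      exact Real.sin_le_sin_of_le_of_le_pi_div_two (by linarith only [t2, t4, e]) (by linarith only [e]) (by linarith only [t2, t4])
  have s1 : Real.sin (π / 6 + h - θ) ≤ Real.sin (π / 3 + h) :=
    le_trans (Real.sin_le_sin_of_le_of_le_pi_div_two (by linarith only [t0, t1, t3]) (by linarith only [t0, t1, t3]) (by linarith only [t3])) s0
  have s2 : Real.sin (π / 6 + θ) ≤ Real.sin (π / 3 + h) :=
    le_trans (Real.sin_le_sin_of_le_of_le_pi_div_two (by linarith only [t0, t1, t3]) (by linarith only [t0, t1, t3]) (by linarith only [t1, t3])) s0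
  have e0 : π / 6 + θ + (π / 6 + h - θ) = π / 3 + h := by ring
  have k1 := certP (q := π / 6 + θ) (r := π / 6 + h - θ) (χ := π / 6 + θ) (ρ := π / 6 + h - θ)
    hc0 hc (by linarith only [b2, t0, t1]) (by linarith only [b2, t0, t1]) (by linarith only [h1, hpi, hh]) (by linarith only [h2, h3, hpi, hh]) (by linarith only [h1, hpi, hh])
    (by rw [e0]; exact s1) (by rw [e0]; exact s2) n y (a + π / 6 + θ) a b l₁ (by linarith only [])
    (by linarith only [hb]) G1
  rw [e0, sub_self, sub_self, phi_zero, one_mul, one_mul, ← add_div] at k1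
  -- the second interval
  have k2 := B_all hc0 hc n y (a + π / 6 + θ + 2 * π / 3) b d l₂ (h - θ) (π / 3 - x + θ)
    (by linarith only [t0, t1]) (by linarith only [b2, t0]) (by linarith only [b3, t0]) (by linarith only [t0, t2]) (Or.inl (by linarith only [t3])) (by linarith only [hb])
    (by linarith only [hd]) G2
  have k3 := B_all hc0 hc n y (a + π / 6 + θ + 4 * π / 3) d (a + 2 * π) l₃ (x - θ) θ
    (by linarith only [t0, t2]) (by linarith only [b3, t0]) (by linarith only [t0]) (by linarith only [b3, t0, t2]) (Or.inr (by linarith only [b3, t2])) (by linarith only [hd])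
    (by linarith only []) G3
  rw [min_eq_left (by linarith only [t4])] at k2
  rw [min_eq_right (by linarith only [t2])] at k3
  have k4 := n3Gm b0 b2 t0 t3 t1
  rw [add_comm (Real.sin (π / 6 + θ))] at k4
  have e1 := dt_add (un (a + π / 6 + θ) + un (a + π / 6 + θ + 2 * π / 3))
    (un (a + π / 6 + θ + 4 * π / 3)) y
  rw [un_three, dt_zero, dt_add] at e1
  linarith only [k1, k2, k3, k4, e1]

theorem top_min_m {c : ℝ} (hc0 : 0 < c) (hc : c < π / 2) {n : ℕ} {y : ℂ} {a b d l₁ l₂ l₃ : ℝ}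
    (G1 : GG c n y a b l₁) (G2 : GG c n y b d l₂) (G3 : GG c n y d (a + 2 * π) l₃)
    (h1 : π / 3 ≤ b - a) (h2 : b - a ≤ d - b) (h3 : b - a ≤ a + 2 * π - d) (h4 : d - b ≤ π)
    (h5 : a + 2 * π - d ≤ π) : 2 * Lam c + 1 / 250 ≤ l₁ + l₂ + l₃ := by
  by_cases h : d - b ≤ a + 2 * π - d
  · exact top_big_m hc0 hc G1 G2 G3 h1 h2 h h5
  have G2' := G3.conj.shift
  rw [show -(a + 2 * π) + 2 * π = -a by ring] at G2'
  have := top_big_m hc0 hc G1.conj G2' G2.conj.shift (by linarith only [h1]) (by linarith) (by linarith)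
    (by linarith)
  linarith

theorem top_all_m {c : ℝ} (hc0 : 0 < c) (hc : c < π / 2) {n : ℕ} {y : ℂ} {a b d l₁ l₂ l₃ : ℝ}
    (G1 : GG c n y a b l₁) (G2 : GG c n y b d l₂) (G3 : GG c n y d (a + 2 * π) l₃)
    (g1 : 2 / 5 ≤ b - a) (g2 : 2 / 5 ≤ d - b) (g3 : 2 / 5 ≤ a + 2 * π - d) (h1 : b - a ≤ π) (h2 : d - b ≤ π) (h3 : a + 2 * π - d ≤ π) :
    2 * Lam c + 1 / 250 ≤ l₁ + l₂ + l₃ := by
  by_cases s1 : b - a ≤ π / 3
  · exact top_small_m hc0 hc G1 G2 G3 g1 s1 h2 h3
  by_cases s2 : d - b ≤ π / 3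
  · have := top_small_m hc0 hc G2 G3 G1.shift g2 s2 h3 (by linarith only [h1])
    linarith only [this]
  by_cases s3 : a + 2 * π - d ≤ π / 3
  · have := top_small_m hc0 hc G3 G1.shift G2.shift g3 s3 (by linarith only [h1]) (by linarith only [h2])
    linarith only [this]
  by_cases t1 : b - a ≤ d - b ∧ b - a ≤ a + 2 * π - d
  · exact top_min_m hc0 hc G1 G2 G3 (by linarith only [s1]) t1.1 t1.2 h2 h3
  by_cases t2 : d - b ≤ a + 2 * π - d ∧ d - b ≤ b - a
  · have := top_min_m hc0 hc G2 G3 G1.shift (by linarith) t2.1 (by linarith only [t2.2]) h3 (by linarith only [h1])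
    linarith only [this]
  · have h6 : a + 2 * π - d ≤ b - a ∧ a + 2 * π - d ≤ d - b := by
      constructor
      · by_contra hcon
        by_cases h7 : b - a ≤ d - b
        · exact t1 ⟨h7, (not_le.1 hcon).le⟩
        · exact t2 ⟨by linarith only [not_le.1 h7, not_le.1 hcon], (not_le.1 h7).le⟩
      · by_contra hcon
        by_cases h7 : b - a ≤ d - b
        · exact t1 ⟨h7, by linarith only [h7, not_le.1 hcon]⟩
        · exact t2 ⟨(not_le.1 hcon).le, (not_le.1 h7).le⟩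
    have := top_min_m hc0 hc G3 G1.shift G2.shift (by linarith only [s3]) (by linarith only [h6.1])
      (by linarith only [h6.2]) (by linarith only [h1]) (by linarith only [h2])
    linarith only [this]

end Pool.Agent.W_8c5d11_w65
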