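import Pool.Agent.W_8c5d11_w65.Marg
import Pool.Agent.W_8c5d11_w65.K

/-!
MP_8c5d11_gt: strictness for all `0 < r < R`. The hypothesis `MidM`.
-/

set_option autoImplicit false

open Set
open scoped Real

namespace Pool.Agent.W_8c5d11_w65

theorem midM {c : ℝ} (hc0 : 0 < c) (hc : c < π / 2) : MidM c :=
  fun _ _ _ _ _ _ _ _ _ _ h1 h2 h3 h4 h5 h6 h7 h8 h9 h10 h11 G1 G2 =>
    mid_split_m hc0 hc h1 h2 h3 h4 h5 h6 h7 h8 h9 h10 h11 G1 G2

end Pool.Agent.W_8c5d11_w65
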