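import Pool.Agent.W_8c5d11_w65.FinAll

/-!
MP_8c5d11_gt: quantitative form of the strict inequality; the disc for `2 * r < R`.
-/

set_option autoImplicit false

open Set Metric MeasureTheory Filter Topology
open scoped Real ENNReal NNReal

namespace Pool.Agent.W_8c5d11_w65

open Pool.Agent.W_8c5d11_v22
open Pool.Agent.W_8c5d11_h73 (hlen horseshoe rot)
open Pool.Agent.W_8c5d11_f73 (phi Lam)

/-- **Quantitative form of the strict inequality.** -/
theorem quant_of_top65
    (pot : ∀ c : ℝ, 0 < c → c < π / 2 → ∀ z z' : ℂ, |GP c z - GP c z'| ≤ dist z z')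
    (top : ∀ c : ℝ, 0 < c → c < π / 2 → ∀ n m p y a b d l₁ l₂ l₃ k₁ k₂ k₃,
      Wd c n y a b l₁ k₁ → Wd c m y b d l₂ k₂ → Wd c p y d (a + 2 * π) l₃ k₃ →
      b < a + π → d < b + π → a + π < d → 2 * Lam c ≤ k₁ + k₂ + k₃)
    {R r : ℝ} (hr : 0 < r) (hR : r < R) {S : Set ℂ} (hc : IsCompact S)
    (hS : IsConnected S) (hcov : sphere 0 R ⊆ cthickening r S) {z₀ : ℂ} (hz₀ : z₀ ∈ S)
    (hz : ‖z₀‖ < R - r) : ENNReal.ofReal (hlen R r + potW R ‖z₀‖ r) ≤ μH[1] S := by
  have hR0 : 0 < R := hr.trans hR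
  have hD0 : 0 < R - r := by linarith
  have hcov' : ∀ t : ℝ, ∃ s ∈ S, dist (pt R t) s ≤ r := by
    intro t
    have h1 : pt R t ∈ sphere (0 : ℂ) R := by
      rw [mem_sphere_zero_iff_norm, norm_pt hR0.le]
    have h2 := hcov h1
    rw [hc.cthickening_eq_biUnion_closedBall hr.le] at h2
    obtain ⟨s, hs, hds⟩ := mem_iUnion₂.1 h2
    exact ⟨s, hs, hds⟩
  have h1 : ∀ᶠ r' in 𝓝[>] r, ENNReal.ofReal (hlen R r' + potW R ‖z₀‖ r') ≤ μH[1] S := by
    filter_upwards [Ioo_mem_nhdsGT hR] with r' hr'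
    set D := R - r' with hD
    have hD' : 0 < D := by linarith [hr'.2]
    set b := Real.arcsin (D / R) with hb
    have hx0 : 0 < D / R := div_pos hD' hR0
    have hx2 : D / R < 1 := by
      rw [div_lt_one hR0]; linarith [hr'.1]
    have hb0 : 0 < b := Real.arcsin_pos.2 hx0
    have hb1 : b < π / 2 := Real.arcsin_lt_pi_div_two.2 hx2
    have hs : Real.sin b = D / R := Real.sin_arcsin (by linarith) (by linarith)
    have e1 := (verifW_of_top hb0 hb1 (pot b hb0 hb1) (top b hb0 hb1)).scale hD'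
    have e2 : D * (1 / Real.sin b) = R := by rw [hs]; field_simp
    have e3 : D * (1 / Real.sin b - 1) = r' := by
      have : D * (1 / Real.sin b - 1) = D * (1 / Real.sin b) - D := by ring
      rw [this, e2]; simp only [hD]; ring
    have e4 : D * (2 * Lam b) = hlen R r' := by
      rw [two_Lam hb0 hb1, hlen_scale hD' (by linarith [hr'.1]) hb]
      congr 1; simp only [hD]; ring
    rw [e2, e3, e4] at e1
    have e5 := verif_boundU e1 hR0 (by
      intro z hz'
      have e6 : 1 ≤ ‖(D : ℂ)⁻¹ * z‖ := by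
        rw [norm_mul, norm_inv, Complex.norm_of_nonneg hD'.le, inv_mul_eq_div, le_div_iff₀ hD']
        linarith
      have e7 : max 0 (1 - ‖(D : ℂ)⁻¹ * z‖ ^ 2) = 0 := max_eq_left (by nlinarith)
      simp only [GP, e7]
      norm_num) hc hS hr'.1 hcov' hz₀ (by linarith)
    rw [← potW_eq (b := b) hD' hs z₀]
    exact e5
  have h3 : ContinuousAt (fun r' => hlen R r' + potW R ‖z₀‖ r') r :=
    (continuous_hlen R).continuousAt.add (potW_continuousAt _ hD0)
  have h4 : Tendsto (fun r' => ENNReal.ofReal (hlen R r' + potW R ‖z₀‖ r')) (𝓝[>] r)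
      (𝓝 (ENNReal.ofReal (hlen R r + potW R ‖z₀‖ r))) :=
    (ENNReal.continuous_ofReal.tendsto _).comp (h3.tendsto.mono_left nhdsWithin_le_nhds)
  exact le_of_tendsto h4 h1

theorem quant_all {R r : ℝ} (hr : 0 < r) (hR : r < R) {S : Set ℂ} (hc : IsCompact S)
    (hS : IsConnected S) (hcov : sphere 0 R ⊆ cthickening r S) {z₀ : ℂ} (hz₀ : z₀ ∈ S)
    (hz : ‖z₀‖ < R - r) : ENNReal.ofReal (hlen R r + potW R ‖z₀‖ r) ≤ μH[1] S :=
  quant_of_top65 (fun _ h1 h2 => pot_all h1 h2) (fun _ h1 h2 => top_any h1 h2) hr hR hc hS hcov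
    hz₀ hz

theorem gap_pos {R r : ℝ} (hr : 0 < r) (hR : 2 * r < R) : 0 < gap R r := by
  unfold gap
  have h1 : 0 < R - r := by linarith
  have h2 : 0 < R := by linarith
  have h3 : r / (R - r) < 1 := by rw [div_lt_one h1]; linarith
  have h4 : 0 < r / (R - r) := by positivity
  have h5 : 0 < 1 - (r / (R - r)) ^ 2 := by nlinarith
  positivity

/-- **The disc for `2 * r < R`.** -/
theorem disc_gap {R r : ℝ} (hr : 0 < r) (hR : 2 * r < R) {S : Set ℂ}
    (h : Covers (closedBall 0 R) r S) : ENNReal.ofReal (hlen R r + gap R r) ≤ μH[1] S := by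
  have hR1 : r < R := by linarith
  have hD : 0 < R - r := by linarith
  have hR0 : 0 < R := by linarith
  obtain ⟨hc, hS, hcov⟩ := h
  have h0 : (0 : ℂ) ∈ cthickening r S := hcov (by simp [hR0.le])
  rw [hc.cthickening_eq_biUnion_closedBall hr.le] at h0
  obtain ⟨z, hz, hz'⟩ := mem_iUnion₂.1 h0
  rw [mem_closedBall, dist_zero_left] at hz'
  refine le_trans (ENNReal.ofReal_le_ofReal ?_)
    (quant_all hr hR1 hc hS (sphere_subset_closedBall.trans hcov) hz (by linarith))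
  have h1 : 0 ≤ ‖z‖ / (R - r) := by positivity
  have h2 : ‖z‖ / (R - r) ≤ r / (R - r) := by gcongr
  have h3 : r / (R - r) < 1 := by rw [div_lt_one hD]; linarith
  have h4 : 0 ≤ 1 - (r / (R - r)) ^ 2 := by nlinarith
  have h5 : 1 - (r / (R - r)) ^ 2 ≤ 1 - (‖z‖ / (R - r)) ^ 2 := by nlinarith
  have h6 : gap R r = (R - r) * (((R - r) / R) ^ 3 / 100000 / 48 * (1 - (r / (R - r)) ^ 2) ^ 3) := by
    unfold gap
    field_simp
    ring
  have h7 : potW R ‖z‖ r =
      (R - r) * (((R - r) / R) ^ 3 / 100000 / 48 * (1 - (‖z‖ / (R - r)) ^ 2) ^ 3) := by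
    unfold potW
    rw [max_eq_right (by linarith)]
  rw [h6, h7]
  have h8 : 0 ≤ ((R - r) / R) ^ 3 / 100000 / 48 := by positivity
  gcongr

end Pool.Agent.W_8c5d11_w65
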